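import Pool.Agent.Lib.MP_b4aa87_al.Rigid

/-!
# Automorphisms of the Grigorchuk group
-/

namespace Pool.Agent.Lib.MP_b4aa87_al

/-- The first Grigorchuk group as a type. -/
abbrev G := ↥Gam

/-- The commutator subgroup. -/
def D : Subgroup G := commutator G

theorem Dp_eq_map : Dp = (commutator G).map Gam.subtype := by
  rw [commutator_def, Subgroup.map_commutator, ← MonoidHom.range_eq_map, Gam.range_subtype]
  rfl

theorem mem_D_iff (g : G) : g ∈ D ↔ (g : P) ∈ Dp := by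
  rw [Dp_eq_map]
  constructor
  · intro h
    exact ⟨g, h, rfl⟩
  · rintro ⟨g', hg', h⟩
    have : g' = g := Subtype.ext h
    rwa [← this]

theorem D_map (φ : G ≃* G) {x : G} (hx : x ∈ D) : φ x ∈ D := by
  have h : (commutator G).map φ.toMonoidHom = commutator G :=
    Subgroup.characteristic_iff_map_eq.1 inferInstance φ
  have : φ x ∈ (commutator G).map φ.toMonoidHom := ⟨x, hx, rfl⟩
  rw [h] at this
  exact this

theorem D_conj {g x : G} (hx : x ∈ D) : g * x * g⁻¹ ∈ D := by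
  rw [mem_D_iff] at hx ⊢
  exact Dp_conj g.2 hx

/-- The stabilizer of the first level. -/
def H : Subgroup G where
  carrier := {g | ∃ x y, (g : P) = pair x y}
  mul_mem' := by
    rintro g h ⟨x, y, hg⟩ ⟨x', y', hh⟩
    exact ⟨_, _, by rw [Subgroup.coe_mul, hg, hh, pair_mul]⟩
  one_mem' := ⟨1, 1, pair_one.symm⟩
  inv_mem' := by
    rintro g ⟨x, y, hg⟩
    exact ⟨_, _, by rw [Subgroup.coe_inv, hg, pair_inv]⟩

/-- Elements acting trivially below `true`. -/
def R0 : Subgroup G where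
  carrier := {g | ∃ x, (g : P) = pair x 1}
  mul_mem' := by
    rintro g h ⟨x, hg⟩ ⟨x', hh⟩
    exact ⟨x * x', by rw [Subgroup.coe_mul, hg, hh, pair_mul, mul_one]⟩
  one_mem' := ⟨1, pair_one.symm⟩
  inv_mem' := by
    rintro g ⟨x, hg⟩
    exact ⟨x⁻¹, by rw [Subgroup.coe_inv, hg, pair_inv, inv_one]⟩

/-- Elements acting trivially below `false`. -/
def R1 : Subgroup G where
  carrier := {g | ∃ x, (g : P) = pair 1 x}
  mul_mem' := by
    rintro g h ⟨x, hg⟩ ⟨x', hh⟩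
    exact ⟨x * x', by rw [Subgroup.coe_mul, hg, hh, pair_mul, mul_one]⟩
  one_mem' := ⟨1, pair_one.symm⟩
  inv_mem' := by
    rintro g ⟨x, hg⟩
    exact ⟨x⁻¹, by rw [Subgroup.coe_inv, hg, pair_inv, inv_one]⟩

/-- `D ∩ R0` -/
def D0 : Subgroup G := D ⊓ R0
/-- `D ∩ R1` -/
def D1 : Subgroup G := D ⊓ R1

theorem R0_inter_R1 {g : G} (h0 : g ∈ R0) (h1 : g ∈ R1) : g = 1 := by
  obtain ⟨x, hx⟩ := h0
  obtain ⟨y, hy⟩ := h1
  rw [hx] at hy
  obtain ⟨rfl, -⟩ := pair_inj hy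
  apply Subtype.ext
  rw [hx, pair_one]; rfl

/-- P1 -/
theorem exists_noncomm {x : P} (hx : x ∈ Gam) (hx1 : x ≠ 1) :
    ∃ y, pair y 1 ∈ Dp ∧ ¬ Commute x y := by
  by_contra hcon
  push Not at hcon
  apply hx1
  refine comm_lemma N0_le K_le_N0 N0_trans (Dp_le t_memDp) hx t_ne_one ?_
  intro g hg
  apply hcon
  obtain ⟨h, hh⟩ := exists_pair_left (N0_le hg)
  have := Dp_conj (inv_mem hh) (K_le_Dp (pair_left_memK t_memK))
  rw [inv_inv, pair_inv, pair_mul, pair_mul, mul_one, inv_mul_cancel] at this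
  exact this

theorem key0 {A B : Subgroup G} (hA : A ≤ D) (hB : B ≤ D)
    (hn : ∀ g ∈ D, ∀ x ∈ A, g * x * g⁻¹ ∈ A) (hc : ∀ x ∈ A, ∀ y ∈ B, Commute x y)
    {x : G} (hx : x ∈ A) {x0 x1 : P} (h : (x : P) = pair x0 x1) (h0 : x0 ≠ 1) : B ≤ D1 := by
  intro b hb
  obtain ⟨b0, b1, hbe⟩ := Dp_pair ((mem_D_iff b).1 (hB hb))
  refine ⟨hB hb, b1, ?_⟩
  have hb0 : b0 ∈ Gam := (pair_mem_cases (hbe ▸ b.2)).1
  have hx0 : x0 ∈ Gam := (pair_mem_cases (h ▸ x.2)).1
  obtain ⟨y, hyD, hyc⟩ := exists_noncomm hx0 h0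
  -- the element `X = [x, (y,1)]`
  set Y : G := ⟨pair y 1, Dp_le hyD⟩ with hY
  have hYD : Y ∈ D := (mem_D_iff Y).2 hyD
  have hX : x * (Y * x⁻¹ * Y⁻¹) ∈ A := mul_mem hx (hn Y hYD _ (inv_mem hx))
  set X : G := x * (Y * x⁻¹ * Y⁻¹) with hXdef
  set z : P := x0 * (y * x0⁻¹ * y⁻¹) with hz
  have hXe : (X : P) = pair z 1 := by
    rw [hXdef]
    simp only [Subgroup.coe_mul, Subgroup.coe_inv, h, hY]
    rw [pair_inv, pair_inv, pair_mul, pair_mul, pair_mul, hz]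
    congr 1
    simp
  have hzG : z ∈ Gam := (pair_mem_cases (hXe ▸ X.2)).1
  have hz1 : z ≠ 1 := by
    intro h'
    apply hyc
    have : x0 * y = z * (y * x0) := by rw [hz]; group
    rw [h', one_mul] at this
    exact this
  have hb01 : b0 = 1 := by
    refine comm_lemma N0_le K_le_N0 N0_trans hzG hb0 hz1 ?_
    rintro g ⟨g', hg'⟩
    have hgG : pair g g' ∈ Gam := Dp_le hg'
    have hgD : (⟨pair g g', hgG⟩ : G) ∈ D := (mem_D_iff _).2 hg'
    have h1 := hn _ (inv_mem hgD) X hX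
    have h2 := hc _ h1 b hb
    have h3 := congrArg (fun q : G => (q : P)) h2.eq
    simp only [Subgroup.coe_mul, Subgroup.coe_inv, hXe, hbe, inv_inv, pair_inv, pair_mul] at h3
    exact (pair_inj h3).1.symm
  rw [hbe, hb01]

theorem key1 {A B : Subgroup G} (hA : A ≤ D) (hB : B ≤ D)
    (hn : ∀ g ∈ D, ∀ x ∈ A, g * x * g⁻¹ ∈ A) (hc : ∀ x ∈ A, ∀ y ∈ B, Commute x y)
    {x : G} (hx : x ∈ A) {x0 x1 : P} (h : (x : P) = pair x0 x1) (h0 : x1 ≠ 1) : B ≤ D0 := by
  intro b hb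
  obtain ⟨b0, b1, hbe⟩ := Dp_pair ((mem_D_iff b).1 (hB hb))
  refine ⟨hB hb, b0, ?_⟩
  have hb0 : b1 ∈ Gam := (pair_mem_cases (hbe ▸ b.2)).2
  have hx0 : x1 ∈ Gam := (pair_mem_cases (h ▸ x.2)).2
  obtain ⟨y, hyD, hyc⟩ := exists_noncomm hx0 h0
  replace hyD := pair_swap_Dp hyD
  set Y : G := ⟨pair 1 y, Dp_le hyD⟩ with hY
  have hYD : Y ∈ D := (mem_D_iff Y).2 hyD
  have hX : x * (Y * x⁻¹ * Y⁻¹) ∈ A := mul_mem hx (hn Y hYD _ (inv_mem hx))
  set X : G := x * (Y * x⁻¹ * Y⁻¹) with hXdef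
  set z : P := x1 * (y * x1⁻¹ * y⁻¹) with hz
  have hXe : (X : P) = pair 1 z := by
    rw [hXdef]
    simp only [Subgroup.coe_mul, Subgroup.coe_inv, h, hY]
    rw [pair_inv, pair_inv, pair_mul, pair_mul, pair_mul, hz]
    congr 1
    simp
  have hzG : z ∈ Gam := (pair_mem_cases (hXe ▸ X.2)).2
  have hz1 : z ≠ 1 := by
    intro h'
    apply hyc
    have : x1 * y = z * (y * x1) := by rw [hz]; group
    rw [h', one_mul] at this
    exact this
  have hb01 : b1 = 1 := by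
    refine comm_lemma N0_le K_le_N0 N0_trans hzG hb0 hz1 ?_
    rintro g ⟨g', hg'⟩
    replace hg' := pair_swap_Dp hg'
    have hgG : pair g' g ∈ Gam := Dp_le hg'
    have hgD : (⟨pair g' g, hgG⟩ : G) ∈ D := (mem_D_iff _).2 hg'
    have h1 := hn _ (inv_mem hgD) X hX
    have h2 := hc _ h1 b hb
    have h3 := congrArg (fun q : G => (q : P)) h2.eq
    simp only [Subgroup.coe_mul, Subgroup.coe_inv, hXe, hbe, inv_inv, pair_inv, pair_mul] at h3
    exact (pair_inj h3).2.symm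
  rw [hbe, hb01]

theorem dichotomy {A B : Subgroup G} (hA : A ≤ D) (hB : B ≤ D)
    (hnA : ∀ g ∈ D, ∀ x ∈ A, g * x * g⁻¹ ∈ A) (hnB : ∀ g ∈ D, ∀ x ∈ B, g * x * g⁻¹ ∈ B)
    (hc : ∀ x ∈ A, ∀ y ∈ B, Commute x y) (hA1 : ∃ x ∈ A, x ≠ 1) (hB1 : ∃ x ∈ B, x ≠ 1) :
    (A ≤ D0 ∧ B ≤ D1) ∨ (A ≤ D1 ∧ B ≤ D0) := by
  have hc' : ∀ x ∈ B, ∀ y ∈ A, Commute x y := fun x hx y hy => (hc y hy x hx).symm
  obtain ⟨x, hxA, hx1⟩ := hA1
  obtain ⟨b, hbB, hb1⟩ := hB1
  obtain ⟨x0, x1, hxe⟩ := Dp_pair ((mem_D_iff x).1 (hA hxA))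
  by_cases h0 : x0 = 1
  · by_cases h1 : x1 = 1
    · exfalso
      apply hx1
      apply Subtype.ext
      rw [hxe, h0, h1, pair_one]; rfl
    · right
      have hBD := key1 hA hB hnA hc hxA hxe h1
      refine ⟨?_, hBD⟩
      obtain ⟨b0, hb0⟩ := (hBD hbB).2
      refine key0 hB hA hnB hc' hbB hb0 ?_
      rintro rfl
      apply hb1
      apply Subtype.ext
      rw [hb0, pair_one]; rfl
  · left
    have hBD := key0 hA hB hnA hc hxA hxe h0
    refine ⟨?_, hBD⟩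
    obtain ⟨b0, hb0⟩ := (hBD hbB).2
    refine key1 hB hA hnB hc' hbB hb0 ?_
    rintro rfl
    apply hb1
    apply Subtype.ext
    rw [hb0, pair_one]; rfl

/-- The element `(t, 1)` -/
def t0 : G := ⟨pair t 1, Dp_le (K_le_Dp (pair_left_memK t_memK))⟩
/-- The element `(1, t)` -/
def t1 : G := ⟨pair 1 t, Dp_le (K_le_Dp (pair_right_memK t_memK))⟩

theorem t0_mem : t0 ∈ D0 :=
  ⟨(mem_D_iff _).2 (K_le_Dp (pair_left_memK t_memK)), t, rfl⟩

theorem t1_mem : t1 ∈ D1 :=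
  ⟨(mem_D_iff _).2 (K_le_Dp (pair_right_memK t_memK)), t, rfl⟩

theorem t0_ne : t0 ≠ 1 := by
  intro h
  have := congrArg (fun q : G => (q : P)) h
  have h2 : pair t 1 = pair 1 1 := by rw [pair_one]; exact this
  exact t_ne_one (pair_inj h2).1

theorem t1_ne : t1 ≠ 1 := by
  intro h
  have := congrArg (fun q : G => (q : P)) h
  have h2 : pair 1 t = pair 1 1 := by rw [pair_one]; exact this
  exact t_ne_one (pair_inj h2).2

theorem D0_conj {g x : G} (hg : g ∈ H) (hx : x ∈ D0) : g * x * g⁻¹ ∈ D0 := by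
  obtain ⟨hxD, x0, hx0⟩ := hx
  refine ⟨D_conj hxD, ?_⟩
  obtain ⟨g0, g1, hg⟩ := hg
  refine ⟨g0 * x0 * g0⁻¹, ?_⟩
  simp only [Subgroup.coe_mul, Subgroup.coe_inv, hx0, hg, pair_inv, pair_mul, mul_one,
    mul_inv_cancel]

theorem D1_conj {g x : G} (hg : g ∈ H) (hx : x ∈ D1) : g * x * g⁻¹ ∈ D1 := by
  obtain ⟨hxD, x0, hx0⟩ := hx
  refine ⟨D_conj hxD, ?_⟩
  obtain ⟨g0, g1, hg⟩ := hg
  refine ⟨g1 * x0 * g1⁻¹, ?_⟩
  simp only [Subgroup.coe_mul, Subgroup.coe_inv, hx0, hg, pair_inv, pair_mul, mul_one,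
    mul_inv_cancel]

theorem D_le_H : D ≤ H := fun g hg => Dp_pair ((mem_D_iff g).1 hg)

theorem D0_comm_D1 {x y : G} (hx : x ∈ D0) (hy : y ∈ D1) : Commute x y := by
  obtain ⟨-, x0, hx0⟩ := hx
  obtain ⟨-, y0, hy0⟩ := hy
  apply Subtype.ext
  rw [Subgroup.coe_mul, Subgroup.coe_mul, hx0, hy0, pair_mul, pair_mul, mul_one, one_mul,
    mul_one, one_mul]

theorem aut_cases (φ : G ≃* G) :
    ((∀ x ∈ D0, φ x ∈ D0) ∧ (∀ x ∈ D1, φ x ∈ D1)) ∨
    ((∀ x ∈ D0, φ x ∈ D1) ∧ (∀ x ∈ D1, φ x ∈ D0)) := by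
  have key := dichotomy (A := D0.map φ.toMonoidHom) (B := D1.map φ.toMonoidHom)
    (by rintro _ ⟨x, hx, rfl⟩; exact D_map φ hx.1)
    (by rintro _ ⟨x, hx, rfl⟩; exact D_map φ hx.1)
    (by
      rintro g hg _ ⟨x, hx, rfl⟩
      refine ⟨φ.symm g * x * (φ.symm g)⁻¹, D0_conj (D_le_H (D_map φ.symm hg)) hx, ?_⟩
      simp)
    (by
      rintro g hg _ ⟨x, hx, rfl⟩
      refine ⟨φ.symm g * x * (φ.symm g)⁻¹, D1_conj (D_le_H (D_map φ.symm hg)) hx, ?_⟩
      simp)
    (by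
      rintro _ ⟨x, hx, rfl⟩ _ ⟨y, hy, rfl⟩
      exact (D0_comm_D1 hx hy).map φ.toMonoidHom)
    ⟨φ t0, ⟨t0, t0_mem, rfl⟩, by simpa using t0_ne⟩
    ⟨φ t1, ⟨t1, t1_mem, rfl⟩, by simpa using t1_ne⟩
  rcases key with ⟨h1, h2⟩ | ⟨h1, h2⟩
  · exact Or.inl ⟨fun x hx => h1 ⟨x, hx, rfl⟩, fun x hx => h2 ⟨x, hx, rfl⟩⟩
  · exact Or.inr ⟨fun x hx => h1 ⟨x, hx, rfl⟩, fun x hx => h2 ⟨x, hx, rfl⟩⟩

/-- Automorphisms preserving the two halves. -/
def Good (φ : G ≃* G) : Prop := (∀ x, x ∈ D0 ↔ φ x ∈ D0) ∧ (∀ x, x ∈ D1 ↔ φ x ∈ D1)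

theorem good_of_le {φ : G ≃* G} (h0 : ∀ x ∈ D0, φ x ∈ D0) (h1 : ∀ x ∈ D1, φ x ∈ D1) :
    Good φ := by
  rcases aut_cases φ.symm with ⟨h0', h1'⟩ | ⟨h0', h1'⟩
  · refine ⟨fun x => ⟨h0 x, fun h => ?_⟩, fun x => ⟨h1 x, fun h => ?_⟩⟩
    · have := h0' _ h
      rwa [φ.symm_apply_apply] at this
    · have := h1' _ h
      rwa [φ.symm_apply_apply] at this
  · exfalso
    have := h0' _ (h0 _ t0_mem)
    rw [φ.symm_apply_apply] at this
    exact t0_ne (R0_inter_R1 t0_mem.2 this.2)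

/-- Conjugation by `a` -/
def tau : G ≃* G := MulAut.conj ⟨a, a_mem⟩

theorem tau_val (x : G) : (tau x : P) = a * x * a := by
  simp [tau, MulAut.conj_apply, a_inv]

theorem tau_D0 {x : G} (hx : x ∈ D0) : tau x ∈ D1 := by
  refine ⟨D_map tau hx.1, ?_⟩
  obtain ⟨-, x0, hx0⟩ := hx
  exact ⟨x0, by rw [tau_val, hx0, a_conj]⟩

theorem tau_D1 {x : G} (hx : x ∈ D1) : tau x ∈ D0 := by
  refine ⟨D_map tau hx.1, ?_⟩
  obtain ⟨-, x0, hx0⟩ := hx
  exact ⟨x0, by rw [tau_val, hx0, a_conj]⟩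

theorem good_or (φ : G ≃* G) : Good φ ∨ Good (φ.trans tau) := by
  rcases aut_cases φ with ⟨h0, h1⟩ | ⟨h0, h1⟩
  · exact Or.inl (good_of_le h0 h1)
  · exact Or.inr (good_of_le (fun x hx => tau_D1 (h0 x hx)) (fun x hx => tau_D0 (h1 x hx)))

theorem mem_H_iff (x : G) : x ∈ H ↔ ∀ y ∈ D0, x * y * x⁻¹ ∈ D0 := by
  constructor
  · intro hx y hy
    exact D0_conj hx hy
  · intro h
    obtain ⟨x0, -, x1, -, hx | hx⟩ := gam_cases x.2
    · exact ⟨x0, x1, hx⟩
    · exfalso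
      have h1 := (h t0 t0_mem)
      obtain ⟨-, y, hy⟩ := h1
      have e : ((x * t0 * x⁻¹ : G) : P) = pair 1 (x1 * t * x1⁻¹) := by
        have : ((x * t0 * x⁻¹ : G) : P) = pair x0 x1 * (a * pair t 1 * a) * pair x0⁻¹ x1⁻¹ := by
          simp only [Subgroup.coe_mul, Subgroup.coe_inv, hx, mul_inv_rev, a_inv, pair_inv, t0]
          simp only [mul_assoc]
        rw [this, a_conj, pair_mul, pair_mul]
        simp
      rw [e] at hy
      have := (pair_inj hy).2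
      rw [mul_inv_eq_one] at this
      have h2 : t = 1 := by simpa using this
      exact t_ne_one h2

theorem mem_R1_iff (x : G) : x ∈ R1 ↔ ∀ y ∈ D0, Commute x y := by
  constructor
  · rintro ⟨x1, hx1⟩ y ⟨-, y0, hy0⟩
    apply Subtype.ext
    rw [Subgroup.coe_mul, Subgroup.coe_mul, hx1, hy0, pair_mul, pair_mul]
    simp
  · intro h
    have hH : x ∈ H := by
      rw [mem_H_iff]
      intro y hy
      rw [(h y hy).eq, mul_inv_cancel_right]
      exact hy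
    obtain ⟨x0, x1, hx⟩ := hH
    refine ⟨x1, ?_⟩
    have : x0 = 1 := by
      by_contra hne
      obtain ⟨y, hy, hyc⟩ := exists_noncomm (pair_mem_cases (hx ▸ x.2)).1 hne
      apply hyc
      have h1 := (h ⟨pair y 1, Dp_le hy⟩ ⟨(mem_D_iff _).2 hy, y, rfl⟩).eq
      have h3 := congrArg (fun q : G => (q : P)) h1
      simp only [Subgroup.coe_mul, hx, pair_mul] at h3
      exact (pair_inj h3).1
    rw [hx, this]

theorem mem_R0_iff (x : G) : x ∈ R0 ↔ ∀ y ∈ D1, Commute x y := by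
  constructor
  · rintro ⟨x1, hx1⟩ y ⟨-, y0, hy0⟩
    apply Subtype.ext
    rw [Subgroup.coe_mul, Subgroup.coe_mul, hx1, hy0, pair_mul, pair_mul]
    simp
  · intro h
    have h' : tau x ∈ R1 := by
      rw [mem_R1_iff]
      intro y hy
      have h1 := h _ (tau_D0 hy)
      have h2 := h1.map tau.toMonoidHom
      have h3 : tau (tau y) = y := by
        apply Subtype.ext
        rw [tau_val, tau_val]
        simp only [mul_assoc, a_mul_a, a_mul_a', mul_one]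
      have h4 : tau.toMonoidHom (tau y) = y := h3
      rw [h4] at h2
      exact h2
    obtain ⟨x1, hx1⟩ := h'
    refine ⟨x1, ?_⟩
    rw [tau_val] at hx1
    rw [← a_conj, ← hx1]
    simp only [mul_assoc, a_mul_a, a_mul_a', mul_one]

theorem good_H {φ : G ≃* G} (hφ : Good φ) (x : G) : x ∈ H ↔ φ x ∈ H := by
  rw [mem_H_iff, mem_H_iff]
  constructor
  · intro h y hy
    have h1 : φ.symm y ∈ D0 := by rw [hφ.1, φ.apply_symm_apply]; exact hy
    have h2 := h _ h1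
    rw [hφ.1] at h2
    simpa using h2
  · intro h y hy
    rw [hφ.1] at hy ⊢
    simpa using h _ hy

theorem good_R1 {φ : G ≃* G} (hφ : Good φ) (x : G) : x ∈ R1 ↔ φ x ∈ R1 := by
  rw [mem_R1_iff, mem_R1_iff]
  constructor
  · intro h y hy
    have h1 : φ.symm y ∈ D0 := by rw [hφ.1, φ.apply_symm_apply]; exact hy
    have h2 := (h _ h1).map φ.toMonoidHom
    have h3 : φ.toMonoidHom (φ.symm y) = y := φ.apply_symm_apply y
    rw [h3] at h2
    exact h2
  · intro h y hy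
    rw [hφ.1] at hy
    have h2 := h _ hy
    have h3 := congrArg φ.symm h2.eq
    rw [map_mul, map_mul, φ.symm_apply_apply, φ.symm_apply_apply] at h3
    exact h3

theorem good_R0 {φ : G ≃* G} (hφ : Good φ) (x : G) : x ∈ R0 ↔ φ x ∈ R0 := by
  rw [mem_R0_iff, mem_R0_iff]
  constructor
  · intro h y hy
    have h1 : φ.symm y ∈ D1 := by rw [hφ.2, φ.apply_symm_apply]; exact hy
    have h2 := (h _ h1).map φ.toMonoidHom
    have h3 : φ.toMonoidHom (φ.symm y) = y := φ.apply_symm_apply y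
    rw [h3] at h2
    exact h2
  · intro h y hy
    rw [hφ.2] at hy
    have h2 := h _ hy
    have h3 := congrArg φ.symm h2.eq
    rw [map_mul, map_mul, φ.symm_apply_apply, φ.symm_apply_apply] at h3
    exact h3

/-- Two elements in one automorphism orbit. -/
def Rel (x y : G) : Prop := ∃ ψ : G ≃* G, ψ x = y

/-- Abstract quotient argument: an automorphism of `G` restricting to `H` and preserving the
kernel of a surjection `p : H → G` induces an automorphism of `G`. -/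
theorem exists_induced (φ : G ≃* G) (hH : ∀ x, x ∈ H ↔ φ x ∈ H) (p : H →* G)
    (hp : Function.Surjective p)
    (hk : ∀ x : H, p x = 1 ↔ p ⟨φ x, (hH x).1 x.2⟩ = 1) :
    ∃ ψ : G ≃* G, ∀ x : H, ψ (p x) = p ⟨φ x, (hH x).1 x.2⟩ := by
  -- the restricted automorphism
  let e : H ≃* H :=
    { toFun := fun x => ⟨φ x, (hH x).1 x.2⟩
      invFun := fun x => ⟨φ.symm x, by rw [hH, φ.apply_symm_apply]; exact x.2⟩
      left_inv := fun x => by simp
      right_inv := fun x => by simp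
      map_mul' := fun x y => by
        apply Subtype.ext
        simp }
  have he : ∀ x : H, e x = ⟨φ x, (hH x).1 x.2⟩ := fun _ => rfl
  have hker : Subgroup.map (↑e : H →* H) p.ker = p.ker := by
    ext y
    constructor
    · rintro ⟨x, hx, rfl⟩
      exact (hk x).1 hx
    · intro hy
      refine ⟨e.symm y, ?_, e.apply_symm_apply y⟩
      have := (hk (e.symm y)).2
      apply this
      rw [← he, e.apply_symm_apply]
      exact hy
  let q := QuotientGroup.quotientKerEquivOfSurjective p hp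
  let ψ : G ≃* G := q.symm.trans ((QuotientGroup.congr p.ker p.ker e hker).trans q)
  refine ⟨ψ, fun x => ?_⟩
  have h1 : q.symm (p x) = (QuotientGroup.mk x : H ⧸ p.ker) := by
    rw [MulEquiv.symm_apply_eq]
    rfl
  change q ((QuotientGroup.congr p.ker p.ker e hker) (q.symm (p x))) = _
  rw [h1]
  rfl

/-- The first coordinate. -/
noncomputable def p0 : H →* G :=
  MonoidHom.mk' (fun h => ⟨Classical.choose h.2, by
    obtain ⟨y, hy⟩ := Classical.choose_spec h.2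
    exact (pair_mem_cases (hy ▸ h.1.2)).1⟩) (by
    intro g h
    apply Subtype.ext
    obtain ⟨y, hy⟩ := Classical.choose_spec g.2
    obtain ⟨y', hy'⟩ := Classical.choose_spec h.2
    obtain ⟨y'', hy''⟩ := Classical.choose_spec (g * h).2
    have : (((g * h : H) : G) : P) = ((g : G) : P) * ((h : G) : P) := rfl
    rw [hy, hy', pair_mul, hy''] at this
    exact (pair_inj this).1)

theorem p0_spec (h : H) {x y : P} (e : ((h : G) : P) = pair x y) : (p0 h : P) = x := by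
  obtain ⟨y', hy'⟩ := Classical.choose_spec h.2
  exact (pair_inj (e.symm.trans hy')).1.symm

/-- The second coordinate. -/
noncomputable def p1 : H →* G :=
  MonoidHom.mk' (fun h => ⟨Classical.choose (Classical.choose_spec h.2), by
    have hy := Classical.choose_spec (Classical.choose_spec h.2)
    exact (pair_mem_cases (hy ▸ h.1.2)).2⟩) (by
    intro g h
    apply Subtype.ext
    have hy := Classical.choose_spec (Classical.choose_spec g.2)
    have hy' := Classical.choose_spec (Classical.choose_spec h.2)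
    have hy'' := Classical.choose_spec (Classical.choose_spec (g * h).2)
    have : (((g * h : H) : G) : P) = ((g : G) : P) * ((h : G) : P) := rfl
    rw [hy, hy', pair_mul, hy''] at this
    exact (pair_inj this).2)

theorem p1_spec (h : H) {x y : P} (e : ((h : G) : P) = pair x y) : (p1 h : P) = y := by
  have hy' := Classical.choose_spec (Classical.choose_spec h.2)
  exact (pair_inj (e.symm.trans hy')).2.symm

theorem p0_surj : Function.Surjective p0 := by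
  intro g
  obtain ⟨y, hy⟩ := exists_pair_left g.2
  exact ⟨⟨⟨_, hy⟩, ⟨_, _, rfl⟩⟩, Subtype.ext (p0_spec _ rfl)⟩

theorem p1_surj : Function.Surjective p1 := by
  intro g
  obtain ⟨y, hy⟩ := exists_pair_right g.2
  exact ⟨⟨⟨_, hy⟩, ⟨_, _, rfl⟩⟩, Subtype.ext (p1_spec _ rfl)⟩

theorem p0_ker (h : H) : p0 h = 1 ↔ (h : G) ∈ R1 := by
  obtain ⟨x, y, e⟩ := h.2
  constructor
  · intro h1
    refine ⟨y, ?_⟩
    have := p0_spec h e
    rw [h1] at this
    rw [e, ← this]; rfl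
  · rintro ⟨y', hy'⟩
    exact Subtype.ext (p0_spec h hy')

theorem p1_ker (h : H) : p1 h = 1 ↔ (h : G) ∈ R0 := by
  obtain ⟨x, y, e⟩ := h.2
  constructor
  · intro h1
    refine ⟨x, ?_⟩
    have := p1_spec h e
    rw [h1] at this
    rw [e, ← this]; rfl
  · rintro ⟨y', hy'⟩
    exact Subtype.ext (p1_spec h hy')

theorem good_pair {φ : G ≃* G} (hφ : Good φ) {x y x' y' g g' : G}
    (hg : (g : P) = pair x y) (hg' : (g' : P) = pair x' y') (h : φ g = g') :
    Rel x x' ∧ Rel y y' := by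
  have hgH : g ∈ H := ⟨_, _, hg⟩
  constructor
  · obtain ⟨ψ, hψ⟩ := exists_induced φ (good_H hφ) p0 p0_surj (by
      intro z
      rw [p0_ker, p0_ker]
      exact good_R1 hφ z)
    refine ⟨ψ, ?_⟩
    have h1 : p0 ⟨g, hgH⟩ = x := Subtype.ext (p0_spec _ hg)
    rw [← h1, hψ]
    apply Subtype.ext
    apply p0_spec (y := (y' : P))
    rw [← hg', ← h]
  · obtain ⟨ψ, hψ⟩ := exists_induced φ (good_H hφ) p1 p1_surj (by
      intro z
      rw [p1_ker, p1_ker]
      exact good_R0 hφ z)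
    refine ⟨ψ, ?_⟩
    have h1 : p1 ⟨g, hgH⟩ = y := Subtype.ext (p1_spec _ hg)
    rw [← h1, hψ]
    apply Subtype.ext
    apply p1_spec (x := (x' : P))
    rw [← hg', ← h]

/-- The automorphism orbit of `(x, y)` determines the unordered pair of the automorphism orbits
of `x` and `y`. -/
theorem rel_pair {x y x' y' g g' : G} (hg : (g : P) = pair x y) (hg' : (g' : P) = pair x' y')
    (h : Rel g g') : (Rel x x' ∧ Rel y y') ∨ (Rel x y' ∧ Rel y x') := by
  obtain ⟨φ, hφ⟩ := h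
  rcases good_or φ with hgood | hgood
  · exact Or.inl (good_pair hgood hg hg' hφ)
  · refine Or.inr (good_pair (g' := tau g') hgood hg ?_ ?_)
    · rw [tau_val, hg', a_conj]
    · rw [MulEquiv.trans_apply, hφ]

end Pool.Agent.Lib.MP_b4aa87_al
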