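import Mathlib

/-!
# Automorphic growth: definitions
-/

namespace Pool.Agent.Lib.MP_b4aa87_al

/-- The ball of radius `n` of the word metric of `G` for the generating set `S`: the elements
that are products of at most `n` elements of `S` and inverses of elements of `S`. -/
def ball {G : Type*} [Group G] (S : Set G) (n : ℕ) : Set G :=
  {g | ∃ l : List G, l.length ≤ n ∧ (∀ x ∈ l, x ∈ S ∨ x⁻¹ ∈ S) ∧ l.prod = g}

/-- The automorphic growth function: the number of `Aut(G)`-orbits in `G` that meet the ball of
radius `n`. -/
noncomputable def autGrowth {G : Type*} [Group G] (S : Set G) (n : ℕ) : ℕ :=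
  Set.ncard ((fun g : G => MulAction.orbit (MulAut G) g) '' ball S n)

/-- The preorder on growth functions: `f n ≤ L * g (L * n + L) + L` for all `n`, for some integer
`L ≥ 1`. -/
def Dominated (f g : ℕ → ℕ) : Prop :=
  ∃ L : ℕ, 1 ≤ L ∧ ∀ n, f n ≤ L * g (L * n + L) + L

/-- A growth function is intermediate if it is not dominated by a polynomial `n ^ d`, and does
not dominate the exponential function `2 ^ n`. -/
def IsIntermediate (f : ℕ → ℕ) : Prop :=
  (∀ d : ℕ, ¬ Dominated f (fun n => n ^ d)) ∧ ¬ Dominated (fun n => 2 ^ n) f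

end Pool.Agent.Lib.MP_b4aa87_al
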