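import Mathlib

/-!
# The first Grigorchuk group

Self-similar permutations of the vertex set `List Bool` of the binary rooted tree.
-/

set_option linter.unusedSimpArgs false

namespace Pool.Agent.Lib.MP_b4aa87_al

/-- Permutations of the vertices of the binary tree. -/
abbrev P := Equiv.Perm (List Bool)

/-- Act by `f` below `false` and by `g` below `true`. -/
def pairFun (f g : List Bool → List Bool) : List Bool → List Bool
  | [] => []
  | false :: w => false :: f w
  | true :: w => true :: g w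

/-- The permutation acting by `f` below `false` and by `g` below `true`. -/
def pair (f g : P) : P where
  toFun := pairFun f g
  invFun := pairFun f.symm g.symm
  left_inv := by
    intro w
    match w with
    | [] => rfl
    | false :: w => simp [pairFun]
    | true :: w => simp [pairFun]
  right_inv := by
    intro w
    match w with
    | [] => rfl
    | false :: w => simp [pairFun]
    | true :: w => simp [pairFun]

@[simp] theorem pair_nil (f g : P) : pair f g [] = [] := rfl
@[simp] theorem pair_false (f g : P) (w : List Bool) : pair f g (false :: w) = false :: f w := rfl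
@[simp] theorem pair_true (f g : P) (w : List Bool) : pair f g (true :: w) = true :: g w := rfl

theorem pair_mul (f g f' g' : P) : pair f g * pair f' g' = pair (f * f') (g * g') := by
  ext1 w
  match w with
  | [] => rfl
  | false :: w => rfl
  | true :: w => rfl

theorem pair_one : pair 1 1 = 1 := by
  ext1 w
  match w with
  | [] => rfl
  | false :: w => rfl
  | true :: w => rfl

theorem pair_inv (f g : P) : (pair f g)⁻¹ = pair f⁻¹ g⁻¹ := by
  rw [inv_eq_iff_mul_eq_one, pair_mul]
  simp [pair_one]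

theorem pair_inj {f g f' g' : P} (h : pair f g = pair f' g') : f = f' ∧ g = g' := by
  constructor
  · ext1 w
    have := congrArg (fun p : P => p (false :: w)) h
    simpa using this
  · ext1 w
    have := congrArg (fun p : P => p (true :: w)) h
    simpa using this

/-- Change the first letter. -/
def flipFun : List Bool → List Bool
  | [] => []
  | x :: w => (!x) :: w

theorem flipFun_flipFun (w : List Bool) : flipFun (flipFun w) = w := by
  cases w <;> simp [flipFun]

/-- The rooted involution. -/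
def a : P := ⟨flipFun, flipFun, flipFun_flipFun, flipFun_flipFun⟩

@[simp] theorem a_nil : a [] = [] := rfl
@[simp] theorem a_cons (x : Bool) (w : List Bool) : a (x :: w) = (!x) :: w := rfl

mutual
/-- the directed involution `b` -/
def fb : List Bool → List Bool
  | [] => []
  | false :: w => false :: flipFun w
  | true :: w => true :: fc w
/-- the directed involution `c` -/
def fc : List Bool → List Bool
  | [] => []
  | false :: w => false :: flipFun w
  | true :: w => true :: fd w
/-- the directed involution `d` -/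
def fd : List Bool → List Bool
  | [] => []
  | false :: w => false :: w
  | true :: w => true :: fb w
end

theorem fbcd_invol (w : List Bool) : fb (fb w) = w ∧ fc (fc w) = w ∧ fd (fd w) = w := by
  induction w with
  | nil => simp [fb, fc, fd]
  | cons x w ih =>
    obtain ⟨h1, h2, h3⟩ := ih
    cases x <;> simp [fb, fc, fd, flipFun_flipFun, h1, h2, h3]

/-- The generator `b` of the Grigorchuk group. -/
def b : P := ⟨fb, fb, fun w => (fbcd_invol w).1, fun w => (fbcd_invol w).1⟩
/-- The generator `c` of the Grigorchuk group. -/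
def c : P := ⟨fc, fc, fun w => (fbcd_invol w).2.1, fun w => (fbcd_invol w).2.1⟩
/-- The generator `d` of the Grigorchuk group. -/
def d : P := ⟨fd, fd, fun w => (fbcd_invol w).2.2, fun w => (fbcd_invol w).2.2⟩

theorem b_eq : b = pair a c := by
  ext1 w
  match w with
  | [] => rfl
  | false :: w => rfl
  | true :: w => rfl

theorem c_eq : c = pair a d := by
  ext1 w
  match w with
  | [] => rfl
  | false :: w => rfl
  | true :: w => rfl

theorem d_eq : d = pair 1 b := by
  ext1 w
  match w with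
  | [] => rfl
  | false :: w => rfl
  | true :: w => rfl

theorem a_mul_a : a * a = 1 := by
  ext1 w
  exact flipFun_flipFun w

theorem b_mul_b : b * b = 1 := by
  ext1 w
  exact (fbcd_invol w).1

theorem c_mul_c : c * c = 1 := by
  ext1 w
  exact (fbcd_invol w).2.1

theorem d_mul_d : d * d = 1 := by
  ext1 w
  exact (fbcd_invol w).2.2

theorem bcd_fun (w : List Bool) : fb (fc w) = fd w ∧ fc (fd w) = fb w ∧ fd (fb w) = fc w := by
  induction w with
  | nil => simp [fb, fc, fd]
  | cons x w ih =>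
    obtain ⟨h1, h2, h3⟩ := ih
    cases x <;> simp [fb, fc, fd, flipFun_flipFun, h1, h2, h3]

theorem b_mul_c : b * c = d := by
  ext1 w
  exact (bcd_fun w).1

theorem c_mul_d : c * d = b := by
  ext1 w
  exact (bcd_fun w).2.1

theorem d_mul_b : d * b = c := by
  ext1 w
  exact (bcd_fun w).2.2

theorem a_inv : a⁻¹ = a := inv_eq_of_mul_eq_one_left a_mul_a
theorem b_inv : b⁻¹ = b := inv_eq_of_mul_eq_one_left b_mul_b
theorem c_inv : c⁻¹ = c := inv_eq_of_mul_eq_one_left c_mul_c
theorem d_inv : d⁻¹ = d := inv_eq_of_mul_eq_one_left d_mul_d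

theorem c_mul_b : c * b = d := by
  have := congrArg (fun x : P => x⁻¹) b_mul_c
  simpa [mul_inv_rev, b_inv, c_inv, d_inv] using this

theorem d_mul_c : d * c = b := by
  have := congrArg (fun x : P => x⁻¹) c_mul_d
  simpa [mul_inv_rev, b_inv, c_inv, d_inv] using this

theorem b_mul_d : b * d = c := by
  have := congrArg (fun x : P => x⁻¹) d_mul_b
  simpa [mul_inv_rev, b_inv, c_inv, d_inv] using this

theorem a_mul_a' (x : P) : a * (a * x) = x := by rw [← mul_assoc, a_mul_a, one_mul]
theorem b_mul_b' (x : P) : b * (b * x) = x := by rw [← mul_assoc, b_mul_b, one_mul]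
theorem c_mul_c' (x : P) : c * (c * x) = x := by rw [← mul_assoc, c_mul_c, one_mul]
theorem d_mul_d' (x : P) : d * (d * x) = x := by rw [← mul_assoc, d_mul_d, one_mul]
theorem b_mul_c' (x : P) : b * (c * x) = d * x := by rw [← mul_assoc, b_mul_c]
theorem c_mul_b' (x : P) : c * (b * x) = d * x := by rw [← mul_assoc, c_mul_b]
theorem c_mul_d' (x : P) : c * (d * x) = b * x := by rw [← mul_assoc, c_mul_d]
theorem d_mul_c' (x : P) : d * (c * x) = b * x := by rw [← mul_assoc, d_mul_c]
theorem b_mul_d' (x : P) : b * (d * x) = c * x := by rw [← mul_assoc, b_mul_d]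
theorem d_mul_b' (x : P) : d * (b * x) = c * x := by rw [← mul_assoc, d_mul_b]

theorem a_conj (x y : P) : a * pair x y * a = pair y x := by
  ext1 w
  match w with
  | [] => rfl
  | false :: w => rfl
  | true :: w => rfl

theorem a_mul_pair (x y : P) : a * pair x y = pair y x * a := by
  rw [← a_conj x y, mul_assoc, mul_assoc, a_mul_a, mul_one]

/-- The first Grigorchuk group. -/
def Gam : Subgroup P := Subgroup.closure {a, b, c, d}

theorem a_mem : a ∈ Gam := Subgroup.subset_closure (by simp)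
theorem b_mem : b ∈ Gam := Subgroup.subset_closure (by simp)
theorem c_mem : c ∈ Gam := Subgroup.subset_closure (by simp)
theorem d_mem : d ∈ Gam := Subgroup.subset_closure (by simp)

theorem gam_cases {g : P} (hg : g ∈ Gam) :
    ∃ x ∈ Gam, ∃ y ∈ Gam, g = pair x y ∨ g = pair x y * a := by
  induction hg using Subgroup.closure_induction with
  | mem g hg =>
    simp only [Set.mem_insert_iff, Set.mem_singleton_iff] at hg
    rcases hg with rfl | rfl | rfl | rfl
    · exact ⟨1, one_mem _, 1, one_mem _, Or.inr (by rw [pair_one, one_mul])⟩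
    · exact ⟨a, a_mem, c, c_mem, Or.inl b_eq⟩
    · exact ⟨a, a_mem, d, d_mem, Or.inl c_eq⟩
    · exact ⟨1, one_mem _, b, b_mem, Or.inl d_eq⟩
  | one => exact ⟨1, one_mem _, 1, one_mem _, Or.inl pair_one.symm⟩
  | mul g h _ _ ihg ihh =>
    obtain ⟨x, hx, y, hy, hg⟩ := ihg
    obtain ⟨x', hx', y', hy', hh⟩ := ihh
    rcases hg with rfl | rfl <;> rcases hh with rfl | rfl
    · exact ⟨x * x', mul_mem hx hx', y * y', mul_mem hy hy', Or.inl (pair_mul _ _ _ _)⟩
    · exact ⟨x * x', mul_mem hx hx', y * y', mul_mem hy hy', Or.inr (by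
        rw [← mul_assoc, pair_mul])⟩
    · refine ⟨x * y', mul_mem hx hy', y * x', mul_mem hy hx', Or.inr ?_⟩
      rw [mul_assoc, a_mul_pair, ← mul_assoc, pair_mul]
    · refine ⟨x * y', mul_mem hx hy', y * x', mul_mem hy hx', Or.inl ?_⟩
      rw [mul_assoc, ← mul_assoc a, a_conj, pair_mul]
  | inv g _ ih =>
    obtain ⟨x, hx, y, hy, hg⟩ := ih
    rcases hg with rfl | rfl
    · exact ⟨x⁻¹, inv_mem hx, y⁻¹, inv_mem hy, Or.inl (pair_inv _ _)⟩
    · refine ⟨y⁻¹, inv_mem hy, x⁻¹, inv_mem hx, Or.inr ?_⟩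
      rw [mul_inv_rev, a_inv, pair_inv, a_mul_pair]

theorem pair_ne_pair_a (x y x' y' : P) : pair x y ≠ pair x' y' * a := by
  intro h
  have := congrArg (fun p : P => p [false]) h
  simp at this

theorem pair_mem_cases {x y : P} (h : pair x y ∈ Gam) : x ∈ Gam ∧ y ∈ Gam := by
  obtain ⟨x', hx', y', hy', h1 | h1⟩ := gam_cases h
  · obtain ⟨rfl, rfl⟩ := pair_inj h1
    exact ⟨hx', hy'⟩
  · exact absurd h1 (pair_ne_pair_a _ _ _ _)

theorem pair_swap_mem {x y : P} (h : pair x y ∈ Gam) : pair y x ∈ Gam := by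
  rw [← a_conj]
  exact mul_mem (mul_mem a_mem h) a_mem

/-- Every element of the group is a first coordinate. -/
theorem exists_pair_left {g : P} (hg : g ∈ Gam) : ∃ y, pair g y ∈ Gam := by
  induction hg using Subgroup.closure_induction with
  | mem g hg =>
    simp only [Set.mem_insert_iff, Set.mem_singleton_iff] at hg
    rcases hg with rfl | rfl | rfl | rfl
    · exact ⟨c, b_eq ▸ b_mem⟩
    · exact ⟨1, pair_swap_mem (d_eq ▸ d_mem)⟩
    · exact ⟨a, pair_swap_mem (b_eq ▸ b_mem)⟩
    · exact ⟨a, pair_swap_mem (c_eq ▸ c_mem)⟩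
  | one => exact ⟨1, by rw [pair_one]; exact one_mem _⟩
  | mul g h _ _ ihg ihh =>
    obtain ⟨y, hy⟩ := ihg
    obtain ⟨y', hy'⟩ := ihh
    exact ⟨y * y', by rw [← pair_mul]; exact mul_mem hy hy'⟩
  | inv g _ ih =>
    obtain ⟨y, hy⟩ := ih
    exact ⟨y⁻¹, by rw [← pair_inv]; exact inv_mem hy⟩

theorem exists_pair_right {g : P} (hg : g ∈ Gam) : ∃ x, pair x g ∈ Gam := by
  obtain ⟨y, hy⟩ := exists_pair_left hg
  exact ⟨y, pair_swap_mem hy⟩

/-! ### The branching subgroup `K` -/

/-- `t = (ab)^2` -/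
def t : P := a * b * a * b
/-- `s = d t d` -/
def s : P := d * t * d
/-- `s' = a s a` -/
def s' : P := a * s * a

theorem t_eq : t = pair (c * a) (a * c) := by
  have : t = (a * b * a) * b := rfl
  rw [this]
  conv_lhs => rw [b_eq]
  rw [a_conj, pair_mul]

theorem s_eq : s = pair (c * a) (b * a * c * b) := by
  rw [s, t_eq]
  conv_lhs => rw [d_eq]
  rw [pair_mul, pair_mul]
  simp [mul_assoc]

theorem s'_eq : s' = pair (b * a * c * b) (c * a) := by
  rw [s', s_eq, a_conj]

/-- The subgroup `K` generated by `t, s, s'`. -/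
def K : Subgroup P := Subgroup.closure {t, s, s'}

theorem t_memK : t ∈ K := Subgroup.subset_closure (by simp)
theorem s_memK : s ∈ K := Subgroup.subset_closure (by simp)
theorem s'_memK : s' ∈ K := Subgroup.subset_closure (by simp)

theorem pair_one_t : pair 1 t = t * s⁻¹ := by
  have h : t * s⁻¹ = pair (c * a) (a * c) * (pair (c * a) (b * a * c * b))⁻¹ := by
    rw [← t_eq, ← s_eq]
  rw [h, pair_inv, pair_mul, t]
  congr 1
  · simp
  · simp [mul_assoc, mul_inv_rev, a_inv, b_inv, c_inv, d_inv, a_mul_a', b_mul_b', c_mul_c', d_mul_d',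
      b_mul_c', c_mul_b', c_mul_d', d_mul_c', b_mul_d', d_mul_b']

theorem pair_t_one : pair t 1 = t⁻¹ * s'⁻¹ := by
  have h : t⁻¹ * s'⁻¹ = (pair (c * a) (a * c))⁻¹ * (pair (b * a * c * b) (c * a))⁻¹ := by
    rw [← t_eq, ← s'_eq]
  rw [h, pair_inv, pair_inv, pair_mul, t]
  congr 1
  · simp [mul_assoc, mul_inv_rev, a_inv, b_inv, c_inv, d_inv, a_mul_a', b_mul_b', c_mul_c', d_mul_d',
      b_mul_c', c_mul_b', c_mul_d', d_mul_c', b_mul_d', d_mul_b']
  · simp [mul_assoc, mul_inv_rev, a_inv, b_inv, c_inv, d_inv, a_mul_a', b_mul_b', c_mul_c', d_mul_d',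
      b_mul_c', c_mul_b', c_mul_d', d_mul_c', b_mul_d', d_mul_b', a_mul_a, b_mul_b, c_mul_c]

theorem pair_one_s : pair 1 s = s⁻¹ * t := by
  have h : s⁻¹ * t = (pair (c * a) (b * a * c * b))⁻¹ * pair (c * a) (a * c) := by
    rw [← t_eq, ← s_eq]
  rw [h, pair_inv, pair_mul, s, t]
  congr 1
  · simp
  · simp [mul_assoc, mul_inv_rev, a_inv, b_inv, c_inv, d_inv, a_mul_a', b_mul_b', c_mul_c', d_mul_d',
      b_mul_c', c_mul_b', c_mul_d', d_mul_c', b_mul_d', d_mul_b', a_mul_a, b_mul_b, c_mul_c,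
      b_mul_c, c_mul_b, c_mul_d, d_mul_c, b_mul_d, d_mul_b]

theorem pair_s_one : pair s 1 = s'⁻¹ * t⁻¹ := by
  have h : s'⁻¹ * t⁻¹ = (pair (b * a * c * b) (c * a))⁻¹ * (pair (c * a) (a * c))⁻¹ := by
    rw [← t_eq, ← s'_eq]
  rw [h, pair_inv, pair_inv, pair_mul, s, t]
  congr 1
  · simp [mul_assoc, mul_inv_rev, a_inv, b_inv, c_inv, d_inv, a_mul_a', b_mul_b', c_mul_c', d_mul_d',
      b_mul_c', c_mul_b', c_mul_d', d_mul_c', b_mul_d', d_mul_b', a_mul_a, b_mul_b, c_mul_c,
      b_mul_c, c_mul_b, c_mul_d, d_mul_c, b_mul_d, d_mul_b]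
  · simp [mul_assoc, mul_inv_rev, a_inv, b_inv, c_inv, d_inv, a_mul_a', b_mul_b', c_mul_c', d_mul_d',
      b_mul_c', c_mul_b', c_mul_d', d_mul_c', b_mul_d', d_mul_b', a_mul_a, b_mul_b, c_mul_c,
      b_mul_c, c_mul_b, c_mul_d, d_mul_c, b_mul_d, d_mul_b]

theorem pair_one_s' : pair 1 s' = t * s * t⁻¹ * t⁻¹ := by
  have h : t * s * t⁻¹ * t⁻¹ = pair (c * a) (a * c) * pair (c * a) (b * a * c * b) *
      (pair (c * a) (a * c))⁻¹ * (pair (c * a) (a * c))⁻¹ := by
    rw [← t_eq, ← s_eq]
  rw [h, pair_inv, pair_mul, pair_mul, pair_mul, s', s, t]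
  congr 1
  · group
  · simp [mul_assoc, mul_inv_rev, a_inv, b_inv, c_inv, d_inv, a_mul_a', b_mul_b', c_mul_c', d_mul_d',
      b_mul_c', c_mul_b', c_mul_d', d_mul_c', b_mul_d', d_mul_b', a_mul_a, b_mul_b, c_mul_c,
      b_mul_c, c_mul_b, c_mul_d, d_mul_c, b_mul_d, d_mul_b]

theorem pair_s'_one : pair s' 1 = t⁻¹ * s' * t * t := by
  have h : t⁻¹ * s' * t * t = (pair (c * a) (a * c))⁻¹ * pair (b * a * c * b) (c * a) *
      (pair (c * a) (a * c)) * (pair (c * a) (a * c)) := by
    rw [← t_eq, ← s'_eq]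
  rw [h, pair_inv, pair_mul, pair_mul, pair_mul, s', s, t]
  congr 1
  · simp [mul_assoc, mul_inv_rev, a_inv, b_inv, c_inv, d_inv, a_mul_a', b_mul_b', c_mul_c', d_mul_d',
      b_mul_c', c_mul_b', c_mul_d', d_mul_c', b_mul_d', d_mul_b', a_mul_a, b_mul_b, c_mul_c,
      b_mul_c, c_mul_b, c_mul_d, d_mul_c, b_mul_d, d_mul_b]
  · simp [mul_assoc, mul_inv_rev, a_inv, b_inv, c_inv, d_inv, a_mul_a', b_mul_b', c_mul_c', d_mul_d',
      b_mul_c', c_mul_b', c_mul_d', d_mul_c', b_mul_d', d_mul_b', a_mul_a, b_mul_b, c_mul_c,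
      b_mul_c, c_mul_b, c_mul_d, d_mul_c, b_mul_d, d_mul_b]

end Pool.Agent.Lib.MP_b4aa87_al
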