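import Pool.Agent.Lib.MP_b4aa87_al.Aut
import Pool.Agent.Lib.MP_b4aa87_al.Defs

/-!
# Subexponential growth of the Grigorchuk group
-/

namespace Pool.Agent.Lib.MP_b4aa87_al

/-- `WL m g`: `g` is the value of a word of weight `m`, where `a, b, c, d` have weights
`3, 3, 2, 1`. -/
inductive WL : ℕ → P → Prop
  | one : WL 0 1
  | ma {n g} : WL n g → WL (n + 3) (a * g)
  | mb {n g} : WL n g → WL (n + 3) (b * g)
  | mc {n g} : WL n g → WL (n + 2) (c * g)
  | md {n g} : WL n g → WL (n + 1) (d * g)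

theorem WL.mul {m n : ℕ} {g h : P} (hg : WL m g) (hh : WL n h) : WL (m + n) (g * h) := by
  induction hg with
  | one => simpa using hh
  | ma _ ih => rw [mul_assoc, add_right_comm]; exact WL.ma ih
  | mb _ ih => rw [mul_assoc, add_right_comm]; exact WL.mb ih
  | mc _ ih => rw [mul_assoc, add_right_comm]; exact WL.mc ih
  | md _ ih => rw [mul_assoc, add_right_comm]; exact WL.md ih

theorem WL_a : WL 3 a := by simpa using WL.ma WL.one
theorem WL_b : WL 3 b := by simpa using WL.mb WL.one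
theorem WL_c : WL 2 c := by simpa using WL.mc WL.one
theorem WL_d : WL 1 d := by simpa using WL.md WL.one

theorem WL.inv {m : ℕ} {g : P} (hg : WL m g) : WL m g⁻¹ := by
  induction hg with
  | one => simpa using WL.one
  | ma _ ih => rw [mul_inv_rev, a_inv]; exact ih.mul WL_a
  | mb _ ih => rw [mul_inv_rev, b_inv]; exact ih.mul WL_b
  | mc _ ih => rw [mul_inv_rev, c_inv]; exact ih.mul WL_c
  | md _ ih => rw [mul_inv_rev, d_inv]; exact ih.mul WL_d

theorem WL_mem {m : ℕ} {g : P} (hg : WL m g) : g ∈ Gam := by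
  induction hg with
  | one => exact one_mem _
  | ma _ ih => exact mul_mem a_mem ih
  | mb _ ih => exact mul_mem b_mem ih
  | mc _ ih => exact mul_mem c_mem ih
  | md _ ih => exact mul_mem d_mem ih

theorem exists_WL {g : P} (hg : g ∈ Gam) : ∃ m, WL m g := by
  induction hg using Subgroup.closure_induction with
  | mem g hg =>
    simp only [Set.mem_insert_iff, Set.mem_singleton_iff] at hg
    rcases hg with rfl | rfl | rfl | rfl
    · exact ⟨_, WL_a⟩
    · exact ⟨_, WL_b⟩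
    · exact ⟨_, WL_c⟩
    · exact ⟨_, WL_d⟩
  | one => exact ⟨0, WL.one⟩
  | mul g h _ _ ihg ihh =>
    obtain ⟨m, hm⟩ := ihg
    obtain ⟨n, hn⟩ := ihh
    exact ⟨_, hm.mul hn⟩
  | inv g _ ih =>
    obtain ⟨m, hm⟩ := ih
    exact ⟨_, hm.inv⟩

/-- The Klein four-group. -/
inductive V
  | e | b | c | d

/-- value -/
def V.ev : V → P
  | .e => 1
  | .b => Pool.Agent.Lib.MP_b4aa87_al.b
  | .c => Pool.Agent.Lib.MP_b4aa87_al.c
  | .d => Pool.Agent.Lib.MP_b4aa87_al.d

/-- weight -/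
def V.wt : V → ℕ
  | .e => 0
  | .b => 3
  | .c => 2
  | .d => 1

/-- multiplication -/
def V.mul : V → V → V
  | .e, x => x
  | x, .e => x
  | .b, .b => .e
  | .c, .c => .e
  | .d, .d => .e
  | .b, .c => .d
  | .c, .b => .d
  | .b, .d => .c
  | .d, .b => .c
  | .c, .d => .b
  | .d, .c => .b

theorem V.ev_mul (x y : V) : (V.mul x y).ev = x.ev * y.ev := by
  cases x <;> cases y <;> simp [V.mul, V.ev, b_mul_b, c_mul_c, d_mul_d, b_mul_c, c_mul_b,
    b_mul_d, d_mul_b, c_mul_d, d_mul_c]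

theorem V.wt_mul (x y : V) : (V.mul x y).wt ≤ x.wt + y.wt := by
  cases x <;> cases y <;> simp [V.mul, V.wt]

/-- product of `a x_i` -/
def PL : List V → P
  | [] => 1
  | x :: l => a * (x.ev * PL l)

/-- weight of `PL l` -/
def wl : List V → ℕ
  | [] => 0
  | x :: l => 3 + x.wt + wl l

theorem reduce {m : ℕ} {g : P} (hg : WL m g) :
    ∃ (x : V) (l : List V), g = x.ev * PL l ∧ x.wt + wl l ≤ m := by
  induction hg with
  | one => exact ⟨.e, [], by simp [V.ev, PL], by simp [V.wt, wl]⟩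
  | ma _ ih =>
    obtain ⟨x, l, rfl, h⟩ := ih
    have e1 : V.wt .e = 0 := rfl
    exact ⟨.e, x :: l, by simp [V.ev, PL], by rw [wl, e1]; omega⟩
  | mb _ ih =>
    obtain ⟨x, l, rfl, h⟩ := ih
    refine ⟨V.mul .b x, l, by rw [V.ev_mul, mul_assoc]; rfl, ?_⟩
    have := V.wt_mul .b x
    have e1 : V.wt .b = 3 := rfl
    omega
  | mc _ ih =>
    obtain ⟨x, l, rfl, h⟩ := ih
    refine ⟨V.mul .c x, l, by rw [V.ev_mul, mul_assoc]; rfl, ?_⟩
    have := V.wt_mul .c x
    have e1 : V.wt .c = 2 := rfl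
    omega
  | md _ ih =>
    obtain ⟨x, l, rfl, h⟩ := ih
    refine ⟨V.mul .d x, l, by rw [V.ev_mul, mul_assoc]; rfl, ?_⟩
    have := V.wt_mul .d x
    have e1 : V.wt .d = 1 := rfl
    omega

theorem V.coords (x : V) : ∃ y0 y1 m0 m1, WL m0 y0 ∧ WL m1 y1 ∧ x.ev = pair y0 y1 ∧
    6 * (m0 + m1) ≤ 5 * (3 + x.wt) ∧ 6 * (m0 + m1) ≤ 5 * x.wt + 15 := by
  cases x with
  | e => exact ⟨1, 1, 0, 0, WL.one, WL.one, pair_one.symm, by simp [V.wt], by simp [V.wt]⟩
  | b => exact ⟨_, _, 3, 2, WL_a, WL_c, b_eq, by simp [V.wt], by simp [V.wt]⟩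
  | c => exact ⟨_, _, 3, 1, WL_a, WL_d, c_eq, by simp [V.wt], by simp [V.wt]⟩
  | d => exact ⟨_, _, 0, 3, WL.one, WL_b, d_eq, by simp [V.wt], by simp [V.wt]⟩

theorem decomp_list (l : List V) : ∃ y0 y1 m0 m1, WL m0 y0 ∧ WL m1 y1 ∧
    (PL l = pair y0 y1 ∨ PL l = pair y0 y1 * a) ∧ 6 * (m0 + m1) ≤ 5 * wl l := by
  induction l with
  | nil => exact ⟨1, 1, 0, 0, WL.one, WL.one, Or.inl pair_one.symm, by simp⟩
  | cons x l ih =>
    obtain ⟨y0, y1, m0, m1, h0, h1, hP, hm⟩ := ih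
    obtain ⟨z0, z1, k0, k1, hz0, hz1, hx, hk, -⟩ := x.coords
    refine ⟨z1 * y1, z0 * y0, k1 + m1, k0 + m0, hz1.mul h1, hz0.mul h0, ?_, ?_⟩
    · rcases hP with hP | hP
      · right
        rw [PL, hP, hx, pair_mul, a_mul_pair]
      · left
        rw [PL, hP, hx, ← mul_assoc, ← mul_assoc, mul_assoc a, pair_mul, a_conj]
    · simp only [wl]
      omega

theorem decomp {m : ℕ} {g : P} (hg : WL m g) : ∃ y0 y1 m0 m1, WL m0 y0 ∧ WL m1 y1 ∧
    (g = pair y0 y1 ∨ g = pair y0 y1 * a) ∧ 6 * (m0 + m1) ≤ 5 * m + 15 := by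
  obtain ⟨x, l, rfl, h⟩ := reduce hg
  obtain ⟨y0, y1, m0, m1, h0, h1, hP, hm⟩ := decomp_list l
  obtain ⟨z0, z1, k0, k1, hz0, hz1, hx, -, hk⟩ := x.coords
  refine ⟨z0 * y0, z1 * y1, k0 + m0, k1 + m1, hz0.mul h0, hz1.mul h1, ?_, by omega⟩
  rcases hP with hP | hP
  · left
    rw [hP, hx, pair_mul]
  · right
    rw [hP, hx, ← mul_assoc, pair_mul]

/-- The set of values of words of weight `m`. -/
def Sph (m : ℕ) : Set P := {g | WL m g}

theorem Sph_zero : Sph 0 = {1} := by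
  ext g
  constructor
  · intro h
    cases h
    rfl
  · rintro rfl
    exact WL.one

theorem Sph_succ_subset (m : ℕ) : Sph (m + 1) ⊆
    ((d * ·) '' Sph m) ∪ (if 1 ≤ m then (c * ·) '' Sph (m - 1) else ∅) ∪
    (if 2 ≤ m then ((a * ·) '' Sph (m - 2)) ∪ ((b * ·) '' Sph (m - 2)) else ∅) := by
  intro g hg
  generalize hk : m + 1 = k at hg
  cases hg with
  | one => omega
  | @ma n g h =>
    right
    rw [if_pos (by omega)]
    left
    exact ⟨g, by rw [show m - 2 = n by omega]; exact h, rfl⟩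
  | @mb n g h =>
    right
    rw [if_pos (by omega)]
    right
    exact ⟨g, by rw [show m - 2 = n by omega]; exact h, rfl⟩
  | @mc n g h =>
    left; right
    rw [if_pos (by omega)]
    exact ⟨g, by rw [show m - 1 = n by omega]; exact h, rfl⟩
  | @md n g h =>
    left; left
    exact ⟨g, by rw [show m = n by omega]; exact h, rfl⟩

theorem Sph_finite_card (m : ℕ) : (Sph m).Finite ∧ (Sph m).ncard ≤ 4 ^ m := by
  induction m using Nat.strong_induction_on with
  | _ m ih =>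
    match m with
    | 0 => rw [Sph_zero]; simp
    | m + 1 =>
      have h1 := ih m (by omega)
      have f1 : ((d * ·) '' Sph m).Finite := h1.1.image _
      have c1 : ((d * ·) '' Sph m).ncard ≤ 4 ^ m := (Set.ncard_image_le h1.1).trans h1.2
      have f2 : (if 1 ≤ m then (c * ·) '' Sph (m - 1) else ∅).Finite := by
        split_ifs with h
        · exact (ih (m - 1) (by omega)).1.image _
        · exact Set.finite_empty
      have c2 : (if 1 ≤ m then (c * ·) '' Sph (m - 1) else ∅).ncard ≤ 4 ^ m := by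
        split_ifs with h
        · have := ih (m - 1) (by omega)
          exact ((Set.ncard_image_le this.1).trans this.2).trans
            (Nat.pow_le_pow_right (by norm_num) (by omega))
        · simp
      have f3 : (if 2 ≤ m then ((a * ·) '' Sph (m - 2)) ∪ ((b * ·) '' Sph (m - 2))
          else ∅).Finite := by
        split_ifs with h
        · have := ih (m - 2) (by omega)
          exact (this.1.image _).union (this.1.image _)
        · exact Set.finite_empty
      have c3 : (if 2 ≤ m then ((a * ·) '' Sph (m - 2)) ∪ ((b * ·) '' Sph (m - 2))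
          else ∅).ncard ≤ 2 * 4 ^ m := by
        split_ifs with h
        · have := ih (m - 2) (by omega)
          have h4 : 4 ^ (m - 2) ≤ 4 ^ m := Nat.pow_le_pow_right (by norm_num) (by omega)
          have h5 := (Set.ncard_image_le (f := (a * ·)) this.1).trans this.2
          have h6 := (Set.ncard_image_le (f := (b * ·)) this.1).trans this.2
          have h7 := Set.ncard_union_le ((a * ·) '' Sph (m - 2)) ((b * ·) '' Sph (m - 2))
          omega
        · simp
      have hsub := Sph_succ_subset m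
      have hfin := (f1.union f2).union f3
      refine ⟨hfin.subset hsub, ?_⟩
      have h8 := Set.ncard_le_ncard hsub hfin
      have h9 := Set.ncard_union_le (((d * ·) '' Sph m) ∪
        (if 1 ≤ m then (c * ·) '' Sph (m - 1) else ∅))
        (if 2 ≤ m then ((a * ·) '' Sph (m - 2)) ∪ ((b * ·) '' Sph (m - 2)) else ∅)
      have h10 := Set.ncard_union_le ((d * ·) '' Sph m)
        (if 1 ≤ m then (c * ·) '' Sph (m - 1) else ∅)
      rw [pow_succ]
      omega

/-- number of values of words of weight `m` -/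
noncomputable def sc (m : ℕ) : ℕ := (Sph m).ncard

theorem Sph_finite (m : ℕ) : (Sph m).Finite := (Sph_finite_card m).1

theorem sc_le_pow (m : ℕ) : sc m ≤ 4 ^ m := (Sph_finite_card m).2

/-- The contraction inequality for the growth. -/
theorem sc_rec (m : ℕ) : sc m ≤ 2 * ∑ p ∈ (Finset.range ((5 * m + 15) / 6 + 1) ×ˢ
    Finset.range ((5 * m + 15) / 6 + 1)).filter (fun p => p.1 + p.2 ≤ (5 * m + 15) / 6),
    sc p.1 * sc p.2 := by
  classical
  set I := (Finset.range ((5 * m + 15) / 6 + 1) ×ˢ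
    Finset.range ((5 * m + 15) / 6 + 1)).filter (fun p => p.1 + p.2 ≤ (5 * m + 15) / 6) with hI
  let T : ℕ × ℕ → Finset P := fun p =>
    ((Sph_finite p.1).toFinset ×ˢ (Sph_finite p.2).toFinset).image (fun q => pair q.1 q.2) ∪
    ((Sph_finite p.1).toFinset ×ˢ (Sph_finite p.2).toFinset).image (fun q => pair q.1 q.2 * a)
  have hT : ∀ p, (T p).card ≤ 2 * (sc p.1 * sc p.2) := by
    intro p
    have h1 := Finset.card_union_le
      (((Sph_finite p.1).toFinset ×ˢ (Sph_finite p.2).toFinset).image (fun q => pair q.1 q.2))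
      (((Sph_finite p.1).toFinset ×ˢ (Sph_finite p.2).toFinset).image (fun q => pair q.1 q.2 * a))
    have h2 := Finset.card_image_le (s := (Sph_finite p.1).toFinset ×ˢ (Sph_finite p.2).toFinset)
      (f := fun q => pair q.1 q.2)
    have h3 := Finset.card_image_le (s := (Sph_finite p.1).toFinset ×ˢ (Sph_finite p.2).toFinset)
      (f := fun q => pair q.1 q.2 * a)
    rw [Finset.card_product, ← Set.ncard_eq_toFinset_card _ (Sph_finite p.1),
      ← Set.ncard_eq_toFinset_card _ (Sph_finite p.2)] at h2 h3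
    change (T p).card ≤ _ at h1
    unfold sc
    omega
  have hsub : (Sph_finite m).toFinset ⊆ I.biUnion T := by
    intro g hg
    rw [Set.Finite.mem_toFinset] at hg
    obtain ⟨y0, y1, m0, m1, h0, h1, hgp, hle⟩ := decomp hg
    rw [Finset.mem_biUnion]
    refine ⟨(m0, m1), ?_, ?_⟩
    · rw [hI, Finset.mem_filter, Finset.mem_product, Finset.mem_range, Finset.mem_range]
      refine ⟨⟨?_, ?_⟩, ?_⟩ <;> simp only <;> omega
    · rcases hgp with rfl | rfl
      · apply Finset.mem_union_left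
        exact Finset.mem_image.2 ⟨(y0, y1), Finset.mem_product.2
          ⟨(Set.Finite.mem_toFinset _).2 h0, (Set.Finite.mem_toFinset _).2 h1⟩, rfl⟩
      · apply Finset.mem_union_right
        exact Finset.mem_image.2 ⟨(y0, y1), Finset.mem_product.2
          ⟨(Set.Finite.mem_toFinset _).2 h0, (Set.Finite.mem_toFinset _).2 h1⟩, rfl⟩
  calc sc m = (Sph_finite m).toFinset.card := Set.ncard_eq_toFinset_card _ _
    _ ≤ (I.biUnion T).card := Finset.card_le_card hsub
    _ ≤ ∑ p ∈ I, (T p).card := Finset.card_biUnion_le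
    _ ≤ ∑ p ∈ I, 2 * (sc p.1 * sc p.2) := Finset.sum_le_sum (fun p _ => hT p)
    _ = 2 * ∑ p ∈ I, sc p.1 * sc p.2 := by rw [Finset.mul_sum]

/-- bound by `A exp (σ m)` -/
def Bd (σ : ℝ) : Prop := ∃ A : ℝ, 0 ≤ A ∧ ∀ m : ℕ, (sc m : ℝ) ≤ A * Real.exp (σ * m)

theorem Bd_mono {σ τ : ℝ} (h : σ ≤ τ) (hσ : Bd σ) : Bd τ := by
  obtain ⟨A, hA, hb⟩ := hσ
  refine ⟨A, hA, fun m => (hb m).trans ?_⟩
  gcongr

theorem poly_le_exp {ε : ℝ} (hε : 0 < ε) (m : ℕ) :
    ((m : ℝ) + 4) ^ 2 ≤ (2 / ε ^ 2 * Real.exp (4 * ε)) * Real.exp (ε * m) := by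
  have h := Real.quadratic_le_exp_of_nonneg (x := ε * (m + 4)) (by positivity)
  have h2 : (ε * ((m : ℝ) + 4)) ^ 2 / 2 ≤ Real.exp (ε * (m + 4)) := by
    have : 0 ≤ ε * ((m : ℝ) + 4) := by positivity
    linarith
  have h3 : Real.exp (ε * (m + 4)) = Real.exp (4 * ε) * Real.exp (ε * m) := by
    rw [← Real.exp_add]; ring_nf
  rw [h3] at h2
  have h4 : ((m : ℝ) + 4) ^ 2 = 2 / ε ^ 2 * ((ε * ((m : ℝ) + 4)) ^ 2 / 2) := by
    field_simp
  rw [h4, mul_assoc]
  gcongr

theorem Bd_step {σ : ℝ} (hσ : 0 < σ) (h : Bd σ) : Bd (11 / 12 * σ) := by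
  obtain ⟨A, hA, hb⟩ := h
  refine ⟨2 * (A ^ 2 * Real.exp (5 / 2 * σ)) * (2 / (σ / 12) ^ 2 * Real.exp (4 * (σ / 12))),
    by positivity, fun m => ?_⟩
  set M := (5 * m + 15) / 6 with hM
  have hM1 : (M : ℝ) ≤ 5 / 6 * m + 5 / 2 := by
    have : 6 * M ≤ 5 * m + 15 := Nat.mul_div_le _ _
    have : (6 : ℝ) * M ≤ 5 * m + 15 := by exact_mod_cast this
    linarith
  have hM2 : (M : ℝ) + 1 ≤ m + 4 := by
    have : (0 : ℝ) ≤ m := Nat.cast_nonneg m
    linarith
  have h1 : (sc m : ℝ) ≤ 2 * ∑ p ∈ (Finset.range (M + 1) ×ˢ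
      Finset.range (M + 1)).filter (fun p => p.1 + p.2 ≤ M), (sc p.1 * sc p.2 : ℝ) := by
    exact_mod_cast sc_rec m
  have h2 : ∑ p ∈ (Finset.range (M + 1) ×ˢ
      Finset.range (M + 1)).filter (fun p => p.1 + p.2 ≤ M), (sc p.1 * sc p.2 : ℝ) ≤
      ∑ p ∈ (Finset.range (M + 1) ×ˢ
      Finset.range (M + 1)).filter (fun p => p.1 + p.2 ≤ M), A ^ 2 * Real.exp (σ * M) := by
    apply Finset.sum_le_sum
    intro p hp
    rw [Finset.mem_filter] at hp
    have hp2 : ((p.1 : ℝ) + p.2) ≤ M := by exact_mod_cast hp.2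
    calc (sc p.1 * sc p.2 : ℝ) ≤ (A * Real.exp (σ * p.1)) * (A * Real.exp (σ * p.2)) := by
          gcongr
          · exact hb _
          · exact hb _
      _ = A ^ 2 * Real.exp (σ * (p.1 + p.2)) := by
          rw [mul_add, Real.exp_add]; ring
      _ ≤ A ^ 2 * Real.exp (σ * M) := by gcongr
  have h3 : ∑ p ∈ (Finset.range (M + 1) ×ˢ
      Finset.range (M + 1)).filter (fun p => p.1 + p.2 ≤ M), A ^ 2 * Real.exp (σ * M) ≤
      ((M : ℝ) + 1) ^ 2 * (A ^ 2 * Real.exp (σ * M)) := by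
    rw [Finset.sum_const, nsmul_eq_mul]
    gcongr
    have := Finset.card_filter_le (Finset.range (M + 1) ×ˢ Finset.range (M + 1))
      (fun p => p.1 + p.2 ≤ M)
    rw [Finset.card_product, Finset.card_range] at this
    have h' : (((Finset.range (M + 1) ×ˢ Finset.range (M + 1)).filter
      (fun p => p.1 + p.2 ≤ M)).card : ℝ) ≤ ((M + 1) * (M + 1) : ℕ) := by exact_mod_cast this
    push_cast at h'
    rw [sq]
    exact h'
  have h4 : Real.exp (σ * M) ≤ Real.exp (5 / 2 * σ) * Real.exp (5 / 6 * σ * m) := by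
    rw [← Real.exp_add]
    apply Real.exp_le_exp.2
    have := mul_le_mul_of_nonneg_left hM1 hσ.le
    linarith
  have h5 : ((M : ℝ) + 1) ^ 2 ≤ (2 / (σ / 12) ^ 2 * Real.exp (4 * (σ / 12))) *
      Real.exp (σ / 12 * m) := by
    refine le_trans ?_ (poly_le_exp (by positivity : 0 < σ / 12) m)
    gcongr
  calc (sc m : ℝ) ≤ 2 * (((M : ℝ) + 1) ^ 2 * (A ^ 2 * Real.exp (σ * M))) := by
        linarith [h1, h2, h3]
    _ ≤ 2 * (((2 / (σ / 12) ^ 2 * Real.exp (4 * (σ / 12))) * Real.exp (σ / 12 * m)) *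
        (A ^ 2 * (Real.exp (5 / 2 * σ) * Real.exp (5 / 6 * σ * m)))) := by
        gcongr
    _ = 2 * (A ^ 2 * Real.exp (5 / 2 * σ)) * (2 / (σ / 12) ^ 2 * Real.exp (4 * (σ / 12))) *
        (Real.exp (σ / 12 * m) * Real.exp (5 / 6 * σ * m)) := by ring
    _ = _ := by
        rw [← Real.exp_add]
        ring_nf

theorem Bd_init : Bd (Real.log 4) := by
  refine ⟨1, by norm_num, fun m => ?_⟩
  rw [one_mul, mul_comm, Real.exp_nat_mul, Real.exp_log (by norm_num)]
  exact_mod_cast sc_le_pow m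

theorem Bd_all {ε : ℝ} (hε : 0 < ε) : Bd ε := by
  have key : ∀ k : ℕ, Bd ((11 / 12) ^ k * Real.log 4) := by
    intro k
    induction k with
    | zero => simpa using Bd_init
    | succ k ih =>
      have := Bd_step (by positivity : 0 < (11 / 12 : ℝ) ^ k * Real.log 4) ih
      rw [pow_succ]
      convert this using 1
      ring
  have hlim : Filter.Tendsto (fun k : ℕ => (11 / 12 : ℝ) ^ k * Real.log 4) Filter.atTop
      (nhds (0 * Real.log 4)) :=
    (tendsto_pow_atTop_nhds_zero_of_lt_one (by norm_num) (by norm_num)).mul_const _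
  rw [zero_mul] at hlim
  obtain ⟨k, hk⟩ := (hlim.eventually (gt_mem_nhds hε)).exists
  exact Bd_mono hk.le (key k)

end Pool.Agent.Lib.MP_b4aa87_al
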