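import Pool.Agent.Lib.MP_b4aa87_al.Growth

/-!
# Upper and lower bounds for the automorphic growth of the Grigorchuk group
-/

namespace Pool.Agent.Lib.MP_b4aa87_al

/-! ### Balls -/

section Ball
variable {Γ : Type*} [Group Γ] {S : Set Γ}

theorem one_mem_ball (n : ℕ) : (1 : Γ) ∈ ball S n := ⟨[], by simp, by simp, by simp⟩

theorem ball_mono {m n : ℕ} (h : m ≤ n) : ball S m ⊆ ball S n := by
  rintro g ⟨l, hl, h1, h2⟩
  exact ⟨l, hl.trans h, h1, h2⟩

theorem mul_mem_ball {m n : ℕ} {g h : Γ} (hg : g ∈ ball S m) (hh : h ∈ ball S n) :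
    g * h ∈ ball S (m + n) := by
  obtain ⟨l, hl, h1, rfl⟩ := hg
  obtain ⟨l', hl', h1', rfl⟩ := hh
  refine ⟨l ++ l', by simp; omega, ?_, by simp⟩
  intro x hx
  rw [List.mem_append] at hx
  rcases hx with hx | hx
  · exact h1 x hx
  · exact h1' x hx

theorem inv_mem_ball {m : ℕ} {g : Γ} (hg : g ∈ ball S m) : g⁻¹ ∈ ball S m := by
  obtain ⟨l, hl, h1, rfl⟩ := hg
  refine ⟨(l.map (·⁻¹)).reverse, by simpa using hl, ?_, by rw [← List.prod_inv_reverse]⟩
  intro x hx
  rw [List.mem_reverse, List.mem_map] at hx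
  obtain ⟨y, hy, rfl⟩ := hx
  rw [inv_inv]
  exact (h1 y hy).symm

theorem exists_mem_ball (hS : Subgroup.closure S = ⊤) (g : Γ) : ∃ n, g ∈ ball S n := by
  have hg : g ∈ Subgroup.closure S := by rw [hS]; trivial
  induction hg using Subgroup.closure_induction with
  | mem g hg => exact ⟨1, [g], by simp, by simpa using Or.inl hg, by simp⟩
  | one => exact ⟨0, one_mem_ball 0⟩
  | mul g h _ _ ihg ihh =>
    obtain ⟨m, hm⟩ := ihg
    obtain ⟨n, hn⟩ := ihh
    exact ⟨_, mul_mem_ball hm hn⟩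
  | inv g _ ih =>
    obtain ⟨m, hm⟩ := ih
    exact ⟨_, inv_mem_ball hm⟩

end Ball

/-! ### Upper bound -/

theorem exists_kappa (S : Finset G) : ∃ κ : ℕ, 1 ≤ κ ∧ ∀ x : G, (x ∈ (S : Set G) ∨ x⁻¹ ∈ (S : Set G)) →
    ∃ m ≤ κ, WL m x := by
  choose f hf using fun x : G => exists_WL x.2
  refine ⟨S.sup f + 1, by omega, ?_⟩
  rintro x (hx | hx)
  · exact ⟨f x, (Finset.le_sup (f := f) (by simpa using hx)).trans (by omega), hf x⟩
  · refine ⟨f x⁻¹, (Finset.le_sup (f := f) (by simpa using hx)).trans (by omega), ?_⟩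
    have := (hf x⁻¹).inv
    simpa using this

theorem WL_of_ball {S : Finset G} {κ : ℕ}
    (hκ : ∀ x : G, (x ∈ (S : Set G) ∨ x⁻¹ ∈ (S : Set G)) → ∃ m ≤ κ, WL m x) :
    ∀ l : List G, (∀ x ∈ l, x ∈ (S : Set G) ∨ x⁻¹ ∈ (S : Set G)) →
      ∃ m ≤ κ * l.length, WL m (l.prod : G) := by
  intro l
  induction l with
  | nil => exact fun _ => ⟨0, by simp, by simpa using WL.one⟩
  | cons x l ih =>
    intro h
    obtain ⟨m, hm, h1⟩ := hκ x (h x (by simp))
    obtain ⟨n, hn, h2⟩ := ih (fun y hy => h y (by simp [hy]))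
    refine ⟨m + n, ?_, ?_⟩
    · rw [List.length_cons, mul_add, mul_one]; omega
    · rw [List.prod_cons, Subgroup.coe_mul]
      exact h1.mul h2

theorem ball_finite_card {S : Finset G} {κ : ℕ}
    (hκ : ∀ x : G, (x ∈ (S : Set G) ∨ x⁻¹ ∈ (S : Set G)) → ∃ m ≤ κ, WL m x) (n : ℕ) :
    (ball (S : Set G) n).Finite ∧
    (ball (S : Set G) n).ncard ≤ ∑ m ∈ Finset.range (κ * n + 1), sc m := by
  classical
  have hsub : (fun g : G => (g : P)) '' (ball (S : Set G) n) ⊆
      ((Finset.range (κ * n + 1)).biUnion (fun m => (Sph_finite m).toFinset) : Finset P) := by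
    rintro _ ⟨g, ⟨l, hl, h1, rfl⟩, rfl⟩
    obtain ⟨m, hm, h2⟩ := WL_of_ball hκ l h1
    rw [Finset.mem_coe, Finset.mem_biUnion]
    refine ⟨m, ?_, (Set.Finite.mem_toFinset _).2 h2⟩
    rw [Finset.mem_range]
    have : κ * l.length ≤ κ * n := Nat.mul_le_mul_left _ hl
    omega
  have hinj : Function.Injective (fun g : G => (g : P)) := Subtype.val_injective
  have hfin : ((fun g : G => (g : P)) '' (ball (S : Set G) n)).Finite :=
    (Finset.finite_toSet _).subset hsub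
  refine ⟨hfin.of_finite_image hinj.injOn, ?_⟩
  rw [← Set.ncard_image_of_injective _ hinj]
  calc ((fun g : G => (g : P)) '' (ball (S : Set G) n)).ncard
      ≤ (((Finset.range (κ * n + 1)).biUnion (fun m => (Sph_finite m).toFinset) : Finset P) :
        Set P).ncard := Set.ncard_le_ncard hsub (Finset.finite_toSet _)
    _ = ((Finset.range (κ * n + 1)).biUnion (fun m => (Sph_finite m).toFinset)).card :=
        Set.ncard_coe_finset _
    _ ≤ ∑ m ∈ Finset.range (κ * n + 1), ((Sph_finite m).toFinset).card :=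
        Finset.card_biUnion_le
    _ = ∑ m ∈ Finset.range (κ * n + 1), sc m := by
        apply Finset.sum_congr rfl
        intro m _
        rw [sc, Set.ncard_eq_toFinset_card _ (Sph_finite m)]

theorem upper (S : Finset G) {ε : ℝ} (hε : 0 < ε) :
    ∃ A : ℝ, 0 ≤ A ∧ ∀ n : ℕ, (autGrowth (S : Set G) n : ℝ) ≤ A * Real.exp (ε * n) := by
  obtain ⟨κ, hκ1, hκ⟩ := exists_kappa S
  have hκ0 : (0 : ℝ) < κ := by exact_mod_cast hκ1
  set σ : ℝ := ε / (2 * κ) with hσ
  have hσ0 : 0 < σ := by positivity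
  obtain ⟨A, hA, hb⟩ := Bd_all hσ0
  refine ⟨A / σ * Real.exp σ, by positivity, fun n => ?_⟩
  obtain ⟨hfin, hcard⟩ := ball_finite_card hκ n
  have h1 : autGrowth (S : Set G) n ≤ ∑ m ∈ Finset.range (κ * n + 1), sc m :=
    (Set.ncard_image_le hfin).trans hcard
  have h2 : (autGrowth (S : Set G) n : ℝ) ≤ ∑ m ∈ Finset.range (κ * n + 1), (sc m : ℝ) := by
    exact_mod_cast h1
  have h3 : ∑ m ∈ Finset.range (κ * n + 1), (sc m : ℝ) ≤
      ∑ m ∈ Finset.range (κ * n + 1), A * Real.exp (σ * (κ * n : ℕ)) := by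
    apply Finset.sum_le_sum
    intro m hm
    rw [Finset.mem_range] at hm
    refine (hb m).trans ?_
    have : (m : ℝ) ≤ (κ * n : ℕ) := by exact_mod_cast (by omega : m ≤ κ * n)
    gcongr
  rw [Finset.sum_const, Finset.card_range, nsmul_eq_mul] at h3
  have h4 : (((κ * n + 1 : ℕ)) : ℝ) ≤ 1 / σ * Real.exp (σ * ((κ * n + 1 : ℕ))) := by
    have h := Real.add_one_le_exp (σ * ((κ * n + 1 : ℕ)))
    have h' : σ * ((κ * n + 1 : ℕ)) ≤ Real.exp (σ * ((κ * n + 1 : ℕ))) := by linarith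
    rw [div_mul_eq_mul_div, one_mul, le_div_iff₀ hσ0]
    linarith
  calc (autGrowth (S : Set G) n : ℝ) ≤
        ((κ * n + 1 : ℕ)) * (A * Real.exp (σ * (κ * n : ℕ))) := h2.trans h3
    _ ≤ (1 / σ * Real.exp (σ * ((κ * n + 1 : ℕ)))) * (A * Real.exp (σ * (κ * n : ℕ))) := by
        gcongr
    _ = A / σ * Real.exp σ * Real.exp (ε * n) := by
        have e1 : Real.exp (σ * ((κ * n + 1 : ℕ))) = Real.exp σ * Real.exp (σ * (κ * n : ℕ)) := by
          rw [← Real.exp_add]; push_cast; ring_nf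
        have e2 : Real.exp (ε * n) = Real.exp (σ * (κ * n : ℕ)) * Real.exp (σ * (κ * n : ℕ)) := by
          rw [← Real.exp_add]
          congr 1
          rw [hσ]; push_cast; field_simp; ring
        rw [e1, e2]; ring

/-! ### Lower bound -/

/-- Word length in `K` -/
inductive WK : ℕ → P → Prop
  | one (n : ℕ) : WK n 1
  | mt {n g} : WK n g → WK (n + 1) (t * g)
  | ms {n g} : WK n g → WK (n + 1) (s * g)
  | ms' {n g} : WK n g → WK (n + 1) (s' * g)
  | mti {n g} : WK n g → WK (n + 1) (t⁻¹ * g)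
  | msi {n g} : WK n g → WK (n + 1) (s⁻¹ * g)
  | msi' {n g} : WK n g → WK (n + 1) (s'⁻¹ * g)

theorem WK.mono_succ {n : ℕ} {g : P} (h : WK n g) : WK (n + 1) g := by
  induction h with
  | one n => exact WK.one _
  | mt _ ih => exact WK.mt ih
  | ms _ ih => exact WK.ms ih
  | ms' _ ih => exact WK.ms' ih
  | mti _ ih => exact WK.mti ih
  | msi _ ih => exact WK.msi ih
  | msi' _ ih => exact WK.msi' ih

theorem WK.mono {m n : ℕ} (hmn : m ≤ n) {g : P} (h : WK m g) : WK n g := by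
  induction hmn with
  | refl => exact h
  | step _ ih => exact ih.mono_succ

theorem WK.mul {m n : ℕ} {g h : P} (hg : WK m g) (hh : WK n h) : WK (m + n) (g * h) := by
  induction hg with
  | one k => rw [one_mul]; exact hh.mono (by omega)
  | mt _ ih => rw [mul_assoc, add_right_comm]; exact WK.mt ih
  | ms _ ih => rw [mul_assoc, add_right_comm]; exact WK.ms ih
  | ms' _ ih => rw [mul_assoc, add_right_comm]; exact WK.ms' ih
  | mti _ ih => rw [mul_assoc, add_right_comm]; exact WK.mti ih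
  | msi _ ih => rw [mul_assoc, add_right_comm]; exact WK.msi ih
  | msi' _ ih => rw [mul_assoc, add_right_comm]; exact WK.msi' ih

theorem WKt : WK 1 t := by simpa using WK.mt (WK.one 0)
theorem WKs : WK 1 s := by simpa using WK.ms (WK.one 0)
theorem WKs' : WK 1 s' := by simpa using WK.ms' (WK.one 0)
theorem WKti : WK 1 t⁻¹ := by simpa using WK.mti (WK.one 0)
theorem WKsi : WK 1 s⁻¹ := by simpa using WK.msi (WK.one 0)
theorem WKsi' : WK 1 s'⁻¹ := by simpa using WK.msi' (WK.one 0)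

theorem WK.inv {m : ℕ} {g : P} (hg : WK m g) : WK m g⁻¹ := by
  induction hg with
  | one n => rw [inv_one]; exact WK.one _
  | mt _ ih => rw [mul_inv_rev]; exact ih.mul WKti
  | ms _ ih => rw [mul_inv_rev]; exact ih.mul WKsi
  | ms' _ ih => rw [mul_inv_rev]; exact ih.mul WKsi'
  | mti _ ih => rw [mul_inv_rev, inv_inv]; exact ih.mul WKt
  | msi _ ih => rw [mul_inv_rev, inv_inv]; exact ih.mul WKs
  | msi' _ ih => rw [mul_inv_rev, inv_inv]; exact ih.mul WKs'

theorem WK_mem {m : ℕ} {g : P} (hg : WK m g) : g ∈ K := by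
  induction hg with
  | one n => exact one_mem _
  | mt _ ih => exact mul_mem t_memK ih
  | ms _ ih => exact mul_mem s_memK ih
  | ms' _ ih => exact mul_mem s'_memK ih
  | mti _ ih => exact mul_mem (inv_mem t_memK) ih
  | msi _ ih => exact mul_mem (inv_mem s_memK) ih
  | msi' _ ih => exact mul_mem (inv_mem s'_memK) ih

theorem WKlt : WK 4 (pair t 1) := by
  rw [pair_t_one]; exact (WKti.mul WKsi').mono (by omega)
theorem WKls : WK 4 (pair s 1) := by
  rw [pair_s_one]; exact (WKsi'.mul WKti).mono (by omega)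
theorem WKls' : WK 4 (pair s' 1) := by
  rw [pair_s'_one]; exact (((WKti.mul WKs').mul WKt).mul WKt).mono (by omega)
theorem WKrt : WK 4 (pair 1 t) := by
  rw [pair_one_t]; exact (WKt.mul WKsi).mono (by omega)
theorem WKrs : WK 4 (pair 1 s) := by
  rw [pair_one_s]; exact (WKsi.mul WKt).mono (by omega)
theorem WKrs' : WK 4 (pair 1 s') := by
  rw [pair_one_s']; exact (((WKt.mul WKs).mul WKti).mul WKti).mono (by omega)

theorem pair_mul_left (x y : P) : pair (x * y) 1 = pair x 1 * pair y 1 := by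
  rw [pair_mul, one_mul]
theorem pair_mul_right (x y : P) : pair 1 (x * y) = pair 1 x * pair 1 y := by
  rw [pair_mul, one_mul]
theorem pair_inv_left (x : P) : pair x⁻¹ 1 = (pair x 1)⁻¹ := by
  rw [pair_inv, inv_one]
theorem pair_inv_right (x : P) : pair 1 x⁻¹ = (pair 1 x)⁻¹ := by
  rw [pair_inv, inv_one]

theorem WK.left {m : ℕ} {g : P} (hg : WK m g) : WK (4 * m) (pair g 1) := by
  induction hg with
  | one n => rw [pair_one]; exact WK.one _
  | mt _ ih => rw [pair_mul_left]; exact (WKlt.mul ih).mono (by omega)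
  | ms _ ih => rw [pair_mul_left]; exact (WKls.mul ih).mono (by omega)
  | ms' _ ih => rw [pair_mul_left]; exact (WKls'.mul ih).mono (by omega)
  | mti _ ih => rw [pair_mul_left, pair_inv_left]; exact (WKlt.inv.mul ih).mono (by omega)
  | msi _ ih => rw [pair_mul_left, pair_inv_left]; exact (WKls.inv.mul ih).mono (by omega)
  | msi' _ ih => rw [pair_mul_left, pair_inv_left]; exact (WKls'.inv.mul ih).mono (by omega)

theorem WK.right {m : ℕ} {g : P} (hg : WK m g) : WK (4 * m) (pair 1 g) := by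
  induction hg with
  | one n => rw [pair_one]; exact WK.one _
  | mt _ ih => rw [pair_mul_right]; exact (WKrt.mul ih).mono (by omega)
  | ms _ ih => rw [pair_mul_right]; exact (WKrs.mul ih).mono (by omega)
  | ms' _ ih => rw [pair_mul_right]; exact (WKrs'.mul ih).mono (by omega)
  | mti _ ih => rw [pair_mul_right, pair_inv_right]; exact (WKrt.inv.mul ih).mono (by omega)
  | msi _ ih => rw [pair_mul_right, pair_inv_right]; exact (WKrs.inv.mul ih).mono (by omega)
  | msi' _ ih => rw [pair_mul_right, pair_inv_right]; exact (WKrs'.inv.mul ih).mono (by omega)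

theorem WK.pair {m n : ℕ} {g h : P} (hg : WK m g) (hh : WK n h) :
    WK (4 * m + 4 * n) (pair g h) := by
  have : Pool.Agent.Lib.MP_b4aa87_al.pair g h =
      Pool.Agent.Lib.MP_b4aa87_al.pair g 1 * Pool.Agent.Lib.MP_b4aa87_al.pair 1 h := by
    rw [pair_mul, mul_one, one_mul]
  rw [this]
  exact hg.left.mul hh.right

/-- The test elements. -/
def E : ℕ → Set P
  | 0 => {1, t}
  | k + 1 => {g | ∃ x ∈ E k, ∃ y ∈ E k, g = pair x y}

theorem E_WK (k : ℕ) : ∀ g ∈ E k, WK (8 ^ k) g := by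
  induction k with
  | zero =>
    rintro g (rfl | rfl)
    · exact WK.one _
    · exact WKt
  | succ k ih =>
    rintro _ ⟨x, hx, y, hy, rfl⟩
    exact ((ih x hx).pair (ih y hy)).mono (by rw [pow_succ]; omega)

theorem K_le_Gam : K ≤ Gam := K_le_Dp.trans Dp_le

theorem E_mem (k : ℕ) {g : P} (hg : g ∈ E k) : g ∈ Gam := K_le_Gam (WK_mem (E_WK k g hg))

theorem E_finite (k : ℕ) : (E k).Finite := by
  induction k with
  | zero => exact (Set.finite_singleton t).insert 1
  | succ k ih =>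
    have : E (k + 1) = (fun p : P × P => pair p.1 p.2) '' (E k ×ˢ E k) := by
      ext g
      constructor
      · rintro ⟨x, hx, y, hy, rfl⟩
        exact ⟨(x, y), ⟨hx, hy⟩, rfl⟩
      · rintro ⟨⟨x, y⟩, ⟨hx, hy⟩, rfl⟩
        exact ⟨x, hx, y, hy, rfl⟩
    rw [this]
    exact (ih.prod ih).image _

/-- Test elements in `G` -/
def EG (k : ℕ) : Set G := {g | (g : P) ∈ E k}

theorem EG_finite (k : ℕ) : (EG k).Finite :=
  (E_finite k).preimage Subtype.val_injective.injOn

/-- Orbits -/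
def orb (g : G) : Set G := MulAction.orbit (MulAut G) g

theorem orb_eq_iff (g h : G) : orb g = orb h ↔ Rel g h := by
  rw [orb, orb, eq_comm, MulAction.orbit_eq_iff, MulAction.mem_orbit_iff]
  rfl

/-- Orbits meeting the test set -/
def O (k : ℕ) : Set (Set G) := orb '' EG k

theorem O_finite (k : ℕ) : (O k).Finite := (EG_finite k).image _

theorem O_card_succ (k : ℕ) : ((O k).ncard + 1).choose 2 ≤ (O (k + 1)).ncard := by
  classical
  rw [Set.ncard_eq_toFinset_card _ (O_finite k), Set.ncard_eq_toFinset_card _ (O_finite (k + 1)),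
    ← Finset.card_sym2]
  -- representatives
  have hr : ∀ o : Set G, ∃ x : G, o ∈ O k → x ∈ EG k ∧ orb x = o := by
    intro o
    by_cases h : o ∈ O k
    · obtain ⟨x, hx, hxo⟩ := h
      exact ⟨x, fun _ => ⟨hx, hxo⟩⟩
    · exact ⟨1, fun h' => absurd h' h⟩
  choose r hr using hr
  let pG : G → G → G := fun x y => if h : pair x y ∈ Gam then ⟨pair x y, h⟩ else 1
  have hpG : ∀ x y : G, x ∈ EG k → y ∈ EG k → ((pG x y : G) : P) = pair x y := by
    intro x y hx hy
    have : pair x y ∈ Gam := E_mem (k + 1) ⟨x, hx, y, hy, rfl⟩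
    simp only [pG, dif_pos this]
  let F : Sym2 (Set G) → Set G := fun s => orb (pG (r (Quot.out s).1) (r (Quot.out s).2))
  have hmem : ∀ s ∈ (O_finite k).toFinset.sym2, (Quot.out s).1 ∈ O k ∧ (Quot.out s).2 ∈ O k := by
    intro s hs
    rw [Finset.mem_sym2_iff] at hs
    constructor
    · have := hs _ (Sym2.out_fst_mem s)
      exact (Set.Finite.mem_toFinset _).1 this
    · have := hs _ (Sym2.out_snd_mem s)
      exact (Set.Finite.mem_toFinset _).1 this
  refine Finset.card_le_card_of_injOn F ?_ ?_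
  · intro s hs
    obtain ⟨h1, h2⟩ := hmem s hs
    have h1' := (hr _ h1).1
    have h2' := (hr _ h2).1
    rw [Finset.mem_coe, Set.Finite.mem_toFinset]
    refine ⟨_, ?_, rfl⟩
    change ((pG (r (Quot.out s).1) (r (Quot.out s).2) : G) : P) ∈ E (k + 1)
    rw [hpG _ _ h1' h2']
    exact ⟨_, h1', _, h2', rfl⟩
  · intro s hs s' hs' hF
    obtain ⟨h1, h2⟩ := hmem s hs
    obtain ⟨h3, h4⟩ := hmem s' hs'
    have hrel := (orb_eq_iff _ _).1 hF
    have e : s = s((Quot.out s).1, (Quot.out s).2) := (Quot.out_eq s).symm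
    have e' : s' = s((Quot.out s').1, (Quot.out s').2) := (Quot.out_eq s').symm
    rcases rel_pair (hpG _ _ (hr _ h1).1 (hr _ h2).1) (hpG _ _ (hr _ h3).1 (hr _ h4).1) hrel with
      ⟨ha, hb⟩ | ⟨ha, hb⟩
    · rw [← orb_eq_iff, (hr _ h1).2, (hr _ h3).2] at ha
      rw [← orb_eq_iff, (hr _ h2).2, (hr _ h4).2] at hb
      rw [e, e', ha, hb]
    · rw [← orb_eq_iff, (hr _ h1).2, (hr _ h4).2] at ha
      rw [← orb_eq_iff, (hr _ h2).2, (hr _ h3).2] at hb
      rw [e, e', ha, hb, Sym2.eq_swap]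

theorem O_zero_card : 2 ≤ (O 0).ncard := by
  have ht : t ∈ Gam := K_le_Gam t_memK
  have h1 : orb 1 ∈ O 0 := ⟨1, Or.inl rfl, rfl⟩
  have h2 : orb ⟨t, ht⟩ ∈ O 0 := ⟨⟨t, ht⟩, Or.inr rfl, rfl⟩
  have hne : orb 1 ≠ orb ⟨t, ht⟩ := by
    rw [Ne, orb_eq_iff]
    rintro ⟨ψ, hψ⟩
    rw [map_one] at hψ
    exact t_ne_one (congrArg (fun q : G => (q : P)) hψ).symm
  have hsub : {orb 1, orb ⟨t, ht⟩} ⊆ O 0 := by
    rintro _ (rfl | rfl)
    · exact h1
    · exact h2
  rw [← Set.ncard_pair hne]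
  exact Set.ncard_le_ncard hsub (O_finite 0)

theorem O_card_lower (k : ℕ) : 2 * (3 / 2 : ℝ) ^ (2 ^ k) ≤ (O (k + 1)).ncard := by
  induction k with
  | zero =>
    have h1 := O_card_succ 0
    have h2 := O_zero_card
    have h3 : (2 + 1).choose 2 ≤ ((O 0).ncard + 1).choose 2 :=
      Nat.choose_le_choose 2 (by omega)
    have h4 : 3 ≤ (O (0 + 1)).ncard := by
      have : (2 + 1).choose 2 = 3 := by decide
      omega
    have : (3 : ℝ) ≤ (O (0 + 1)).ncard := by exact_mod_cast h4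
    norm_num at this ⊢
    linarith
  | succ k ih =>
    have h1 := O_card_succ (k + 1)
    set n := (O (k + 1)).ncard with hn
    have h2 : (n + 1) * n = (n + 1).choose 2 * 2 := by
      have := Nat.add_one_mul_choose_eq n 1
      rwa [Nat.choose_one_right] at this
    have h3 : n * n ≤ 2 * (O (k + 1 + 1)).ncard := by nlinarith
    have h4 : (n : ℝ) * n ≤ 2 * (O (k + 1 + 1)).ncard := by exact_mod_cast h3
    have h5 : (2 * (3 / 2 : ℝ) ^ (2 ^ k)) * (2 * (3 / 2 : ℝ) ^ (2 ^ k)) ≤ n * n := by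
      apply mul_le_mul ih ih (by positivity) (by positivity)
    have h6 : (3 / 2 : ℝ) ^ (2 ^ (k + 1)) = (3 / 2 : ℝ) ^ (2 ^ k) * (3 / 2 : ℝ) ^ (2 ^ k) := by
      rw [← pow_add]; congr 1; rw [pow_succ]; ring
    rw [h6]
    nlinarith

theorem EG_ball {S : Set G} (hS : Subgroup.closure S = ⊤) :
    ∃ κ : ℕ, ∀ k, EG k ⊆ ball S (κ * 8 ^ k) := by
  have ht : t ∈ Gam := K_le_Gam t_memK
  have hs : s ∈ Gam := K_le_Gam s_memK
  have hs' : s' ∈ Gam := K_le_Gam s'_memK
  obtain ⟨n1, h1⟩ := exists_mem_ball hS (⟨t, ht⟩ : G)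
  obtain ⟨n2, h2⟩ := exists_mem_ball hS (⟨s, hs⟩ : G)
  obtain ⟨n3, h3⟩ := exists_mem_ball hS (⟨s', hs'⟩ : G)
  set κ := n1 + n2 + n3 with hκ
  have key : ∀ n g, WK n g → ∀ hg : g ∈ Gam, (⟨g, hg⟩ : G) ∈ ball S (κ * n) := by
    intro n g hW
    induction hW with
    | one n => exact fun _ => one_mem_ball _
    | @mt n g hW ih =>
      intro hg
      have hg' : g ∈ Gam := K_le_Gam (WK_mem hW)
      have : (⟨t * g, hg⟩ : G) = ⟨t, ht⟩ * ⟨g, hg'⟩ := rfl
      rw [this]
      exact ball_mono (by rw [mul_add, mul_one]; omega) (mul_mem_ball h1 (ih hg'))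
    | @ms n g hW ih =>
      intro hg
      have hg' : g ∈ Gam := K_le_Gam (WK_mem hW)
      have : (⟨s * g, hg⟩ : G) = ⟨s, hs⟩ * ⟨g, hg'⟩ := rfl
      rw [this]
      exact ball_mono (by rw [mul_add, mul_one]; omega) (mul_mem_ball h2 (ih hg'))
    | @ms' n g hW ih =>
      intro hg
      have hg' : g ∈ Gam := K_le_Gam (WK_mem hW)
      have : (⟨s' * g, hg⟩ : G) = ⟨s', hs'⟩ * ⟨g, hg'⟩ := rfl
      rw [this]
      exact ball_mono (by rw [mul_add, mul_one]; omega) (mul_mem_ball h3 (ih hg'))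
    | @mti n g hW ih =>
      intro hg
      have hg' : g ∈ Gam := K_le_Gam (WK_mem hW)
      have : (⟨t⁻¹ * g, hg⟩ : G) = (⟨t, ht⟩ : G)⁻¹ * ⟨g, hg'⟩ := rfl
      rw [this]
      exact ball_mono (by rw [mul_add, mul_one]; omega) (mul_mem_ball (inv_mem_ball h1) (ih hg'))
    | @msi n g hW ih =>
      intro hg
      have hg' : g ∈ Gam := K_le_Gam (WK_mem hW)
      have : (⟨s⁻¹ * g, hg⟩ : G) = (⟨s, hs⟩ : G)⁻¹ * ⟨g, hg'⟩ := rfl
      rw [this]
      exact ball_mono (by rw [mul_add, mul_one]; omega) (mul_mem_ball (inv_mem_ball h2) (ih hg'))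
    | @msi' n g hW ih =>
      intro hg
      have hg' : g ∈ Gam := K_le_Gam (WK_mem hW)
      have : (⟨s'⁻¹ * g, hg⟩ : G) = (⟨s', hs'⟩ : G)⁻¹ * ⟨g, hg'⟩ := rfl
      rw [this]
      exact ball_mono (by rw [mul_add, mul_one]; omega) (mul_mem_ball (inv_mem_ball h3) (ih hg'))
  exact ⟨κ, fun k g hg => key _ _ (E_WK k g hg) g.2⟩

theorem lower (S : Finset G) (hS : Subgroup.closure (S : Set G) = ⊤) :
    ∃ κ : ℕ, ∀ k, 2 * (3 / 2 : ℝ) ^ (2 ^ k) ≤ autGrowth (S : Set G) (κ * 8 ^ (k + 1)) := by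
  obtain ⟨κ, hκ⟩ := EG_ball hS
  obtain ⟨κ', -, hκ'⟩ := exists_kappa S
  refine ⟨κ, fun k => (O_card_lower k).trans ?_⟩
  have hsub : O (k + 1) ⊆ (fun g : G => MulAction.orbit (MulAut G) g) ''
      ball (S : Set G) (κ * 8 ^ (k + 1)) := Set.image_mono (hκ (k + 1))
  have := Set.ncard_le_ncard hsub ((ball_finite_card hκ' _).1.image _)
  exact_mod_cast this

/-! ### Conclusion -/

theorem not_poly (S : Finset G) (hS : Subgroup.closure (S : Set G) = ⊤) (d : ℕ) :
    ¬ Dominated (autGrowth (S : Set G)) (fun n => n ^ d) := by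
  rintro ⟨L, hL1, hL⟩
  obtain ⟨κ, hκ⟩ := lower S hS
  -- constant
  set C : ℝ := L * (L * κ * 8 + L) ^ d + L with hC
  have hC0 : 0 ≤ C := by positivity
  have hbound : ∀ k : ℕ, 2 * (3 / 2 : ℝ) ^ (2 ^ k) ≤ C * ((2 ^ k : ℕ) : ℝ) ^ (3 * d) := by
    intro k
    have h1 := hκ k
    have h2 : (autGrowth (S : Set G) (κ * 8 ^ (k + 1)) : ℝ) ≤
        L * (L * (κ * 8 ^ (k + 1)) + L) ^ d + L := by
      exact_mod_cast hL (κ * 8 ^ (k + 1))
    have h8 : (1 : ℝ) ≤ 8 ^ k := one_le_pow₀ (by norm_num)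
    have h3 : (L : ℝ) * (κ * 8 ^ (k + 1)) + L ≤ (L * κ * 8 + L) * 8 ^ k := by
      rw [pow_succ, add_mul]
      have : (L : ℝ) ≤ L * 8 ^ k := le_mul_of_one_le_right (by positivity) h8
      nlinarith
    have h4 : ((L : ℝ) * (κ * 8 ^ (k + 1)) + L) ^ d ≤ (L * κ * 8 + L) ^ d * (8 ^ k) ^ d := by
      rw [← mul_pow]
      gcongr
    have h5 : ((2 ^ k : ℕ) : ℝ) ^ (3 * d) = (8 ^ k) ^ d := by
      push_cast
      rw [pow_mul, ← pow_mul 2 k 3, mul_comm k 3, pow_mul 2 3 k]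
      norm_num
    have h6 : (1 : ℝ) ≤ (8 ^ k) ^ d := one_le_pow₀ h8
    rw [h5, hC, add_mul]
    have h7 : (L : ℝ) ≤ L * (8 ^ k) ^ d := le_mul_of_one_le_right (by positivity) h6
    have h9 : (L : ℝ) * (L * (κ * 8 ^ (k + 1)) + L) ^ d ≤
        L * ((L * κ * 8 + L) ^ d * (8 ^ k) ^ d) := by gcongr
    linarith
  have hlim := tendsto_pow_const_div_const_pow_of_one_lt (3 * d) (r := (3 / 2 : ℝ)) (by norm_num)
  have hlim2 := hlim.comp (tendsto_pow_atTop_atTop_of_one_lt (r := 2) (by norm_num : 1 < 2))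
  have hlim3 := hlim2.const_mul C
  rw [mul_zero] at hlim3
  obtain ⟨k, hk⟩ := (hlim3.eventually (gt_mem_nhds (show (0 : ℝ) < 1 by norm_num))).exists
  have hb := hbound k
  have hp : (0 : ℝ) < (3 / 2 : ℝ) ^ (2 ^ k) := by positivity
  simp only [Function.comp] at hk
  rw [← mul_div_assoc, div_lt_one hp] at hk
  linarith

theorem not_exp (S : Finset G) : ¬ Dominated (fun n => 2 ^ n) (autGrowth (S : Set G)) := by
  rintro ⟨L, hL1, hL⟩
  have hL0 : (0 : ℝ) < L := by exact_mod_cast hL1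
  obtain ⟨A, hA, hb⟩ := upper S (ε := 1 / (2 * L)) (by positivity)
  set C : ℝ := L * (A * Real.exp (1 / 2)) + L with hC
  have hC0 : 0 < C := by positivity
  have hbound : ∀ n : ℕ, (2 : ℝ) ^ n ≤ C * (Real.exp (1 / 2)) ^ n := by
    intro n
    have h1 : (2 : ℝ) ^ n ≤ L * autGrowth (S : Set G) (L * n + L) + L := by
      exact_mod_cast hL n
    have h2 := hb (L * n + L)
    have h3 : Real.exp (1 / (2 * L) * ((L * n + L : ℕ) : ℝ)) =
        Real.exp (1 / 2) * Real.exp (1 / 2) ^ n := by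
      rw [← Real.exp_nat_mul, ← Real.exp_add]
      congr 1
      push_cast
      field_simp
      ring
    rw [h3] at h2
    have h4 : (1 : ℝ) ≤ Real.exp (1 / 2) ^ n := one_le_pow₀ (Real.one_le_exp (by norm_num))
    have h5 : (L : ℝ) ≤ L * Real.exp (1 / 2) ^ n := le_mul_of_one_le_right hL0.le h4
    have h6 : (L : ℝ) * autGrowth (S : Set G) (L * n + L) ≤
        L * (A * (Real.exp (1 / 2) * Real.exp (1 / 2) ^ n)) := by gcongr
    rw [hC, add_mul]
    linarith
  have he : Real.exp (1 / 2) < 2 := by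
    have h1 : Real.exp (1 / 2) * Real.exp (1 / 2) = Real.exp 1 := by
      rw [← Real.exp_add]; norm_num
    have h2 := Real.exp_one_lt_d9
    by_contra hcon
    push Not at hcon
    nlinarith
  have hr : 1 < 2 / Real.exp (1 / 2) := by
    rw [lt_div_iff₀ (Real.exp_pos _), one_mul]; exact he
  obtain ⟨n, hn⟩ := pow_unbounded_of_one_lt C hr
  rw [div_pow, lt_div_iff₀ (by positivity)] at hn
  exact absurd (hbound n) (not_le.2 hn)

theorem Gam_fg : Group.FG G := by
  rw [Group.fg_iff_subgroup_fg, Subgroup.fg_iff]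
  exact ⟨{a, b, c, d}, rfl, by simp⟩

/-- The Grigorchuk group has intermediate automorphic growth. -/
theorem main (S : Finset G) (hS : Subgroup.closure (S : Set G) = ⊤) :
    IsIntermediate (autGrowth (S : Set G)) :=
  ⟨not_poly S hS, not_exp S⟩

end Pool.Agent.Lib.MP_b4aa87_al
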