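import Pool.Agent.Lib.MP_b4aa87_al.Grig

/-!
# Transitivity and centralizers
-/

set_option linter.unusedSimpArgs false

namespace Pool.Agent.Lib.MP_b4aa87_al

/-! ### The group acts by tree automorphisms -/

theorem app_inv (g : P) (w : List Bool) : g (g⁻¹ w) = w := g.apply_symm_apply w

theorem inv_app (g : P) (w : List Bool) : g⁻¹ (g w) = w := g.symm_apply_apply w

theorem flipFun_length (w : List Bool) : (flipFun w).length = w.length := by
  cases w <;> simp [flipFun]

theorem flipFun_prefix (u w : List Bool) (h : u <+: w) : flipFun u <+: flipFun w := by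
  cases u with
  | nil => simp [flipFun]
  | cons x u =>
    cases w with
    | nil => simp at h
    | cons y w =>
      rw [List.cons_prefix_cons] at h
      simp only [flipFun]
      rw [List.cons_prefix_cons]
      exact ⟨by rw [h.1], h.2⟩

theorem fbcd_length (w : List Bool) :
    (fb w).length = w.length ∧ (fc w).length = w.length ∧ (fd w).length = w.length := by
  induction w with
  | nil => simp [fb, fc, fd]
  | cons x w ih =>
    obtain ⟨h1, h2, h3⟩ := ih
    cases x <;> simp [fb, fc, fd, flipFun_length, h1, h2, h3]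

theorem fbcd_prefix (w : List Bool) : ∀ u, u <+: w →
    (fb u <+: fb w) ∧ (fc u <+: fc w) ∧ (fd u <+: fd w) := by
  induction w with
  | nil =>
    intro u hu
    rw [List.prefix_nil] at hu
    subst hu
    simp
  | cons x w ih =>
    intro u hu
    cases u with
    | nil => exact ⟨List.nil_prefix, List.nil_prefix, List.nil_prefix⟩
    | cons y u =>
      rw [List.cons_prefix_cons] at hu
      obtain ⟨rfl, hu⟩ := hu
      obtain ⟨h1, h2, h3⟩ := ih u hu
      cases y <;> simp [fb, fc, fd, List.cons_prefix_cons, flipFun_prefix u w hu, h1, h2, h3, hu]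

/-- The group of permutations preserving length and the prefix relation. -/
def TA : Subgroup P where
  carrier := {g | (∀ w, (g w).length = w.length) ∧ ∀ u w, u <+: w ↔ g u <+: g w}
  mul_mem' := by
    rintro g h ⟨g1, g2⟩ ⟨h1, h2⟩
    refine ⟨fun w => ?_, fun u w => ?_⟩
    · rw [Equiv.Perm.mul_apply, g1, h1]
    · rw [Equiv.Perm.mul_apply, Equiv.Perm.mul_apply, ← g2, ← h2]
  one_mem' := ⟨fun _ => rfl, fun _ _ => Iff.rfl⟩
  inv_mem' := by
    rintro g ⟨g1, g2⟩
    refine ⟨fun w => ?_, fun u w => ?_⟩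
    · rw [← g1 (g⁻¹ w), app_inv]
    · rw [g2 (g⁻¹ u) (g⁻¹ w), app_inv, app_inv]

theorem mem_TA_of_invol (g : P) (h0 : ∀ w, g (g w) = w) (h1 : ∀ w, (g w).length = w.length)
    (h2 : ∀ u w, u <+: w → g u <+: g w) : g ∈ TA := by
  refine ⟨h1, fun u w => ⟨h2 u w, fun h => ?_⟩⟩
  have := h2 _ _ h
  rwa [h0, h0] at this

theorem gam_le_TA : Gam ≤ TA := by
  rw [Gam, Subgroup.closure_le]
  intro g hg
  simp only [Set.mem_insert_iff, Set.mem_singleton_iff] at hg
  rcases hg with rfl | rfl | rfl | rfl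
  · exact mem_TA_of_invol _ flipFun_flipFun flipFun_length flipFun_prefix
  · exact mem_TA_of_invol _ (fun w => (fbcd_invol w).1) (fun w => (fbcd_length w).1)
      (fun u w h => (fbcd_prefix w u h).1)
  · exact mem_TA_of_invol _ (fun w => (fbcd_invol w).2.1) (fun w => (fbcd_length w).2.1)
      (fun u w h => (fbcd_prefix w u h).2.1)
  · exact mem_TA_of_invol _ (fun w => (fbcd_invol w).2.2) (fun w => (fbcd_length w).2.2)
      (fun u w h => (fbcd_prefix w u h).2.2)

theorem gam_length {g : P} (hg : g ∈ Gam) (w : List Bool) : (g w).length = w.length :=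
  (gam_le_TA hg).1 w

theorem gam_prefix {g : P} (hg : g ∈ Gam) (u w : List Bool) : u <+: w ↔ g u <+: g w :=
  (gam_le_TA hg).2 u w

/-! ### Rigid stabilizers -/

/-- Permutations supported below `u`. -/
def Rist (u : List Bool) : Subgroup P where
  carrier := {h | ∀ w, ¬ u <+: w → h w = w}
  mul_mem' := by
    intro g h hg hh w hw
    rw [Equiv.Perm.mul_apply, hh w hw, hg w hw]
  one_mem' := fun _ _ => rfl
  inv_mem' := by
    intro g hg w hw
    rw [Equiv.Perm.inv_eq_iff_eq]
    exact (hg w hw).symm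

theorem rist_conj {g h : P} (hg : g ∈ Gam) {u : List Bool} (hh : h ∈ Rist u) :
    g * h * g⁻¹ ∈ Rist (g u) := by
  intro w hw
  rw [Equiv.Perm.mul_apply, Equiv.Perm.mul_apply]
  have : ¬ u <+: g⁻¹ w := by
    intro h'
    rw [gam_prefix hg, app_inv] at h'
    exact hw h'
  rw [hh _ this, app_inv]

theorem eq_of_prefix {u v w : List Bool} (hl : u.length = v.length) (hu : u <+: w)
    (hv : v <+: w) : u = v := by
  have h1 := List.prefix_of_prefix_length_le hu hv hl.le
  exact h1.eq_of_length hl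

theorem rist_disjoint {u v : List Bool} (hl : u.length = v.length) (hne : u ≠ v) {g h : P}
    (hg : g ∈ Rist u) (hh : h ∈ Rist v) : Equiv.Perm.Disjoint g h := by
  intro w
  by_cases hu : u <+: w
  · right
    apply hh
    intro hv
    exact hne (eq_of_prefix hl hu hv)
  · left
    exact hg w hu

theorem rist_inter {u v : List Bool} (hl : u.length = v.length) (hne : u ≠ v) {g : P}
    (hg : g ∈ Rist u) (hh : g ∈ Rist v) : g = 1 := by
  ext1 w
  rcases rist_disjoint hl hne hg hh w with h | h <;> exact h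

theorem pair_left_rist {g : P} {u : List Bool} (hg : g ∈ Rist u) :
    pair g 1 ∈ Rist (false :: u) := by
  intro w hw
  match w with
  | [] => rfl
  | false :: w =>
    rw [pair_false, hg w]
    intro h
    exact hw (by rw [List.cons_prefix_cons]; exact ⟨rfl, h⟩)
  | true :: w => rfl

theorem pair_right_rist {g : P} {u : List Bool} (hg : g ∈ Rist u) :
    pair 1 g ∈ Rist (true :: u) := by
  intro w hw
  match w with
  | [] => rfl
  | true :: w =>
    rw [pair_true, hg w]
    intro h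
    exact hw (by rw [List.cons_prefix_cons]; exact ⟨rfl, h⟩)
  | false :: w => rfl

theorem pair_right_memK {k : P} (hk : k ∈ K) : pair 1 k ∈ K := by
  induction hk using Subgroup.closure_induction with
  | mem g hg =>
    simp only [Set.mem_insert_iff, Set.mem_singleton_iff] at hg
    rcases hg with rfl | rfl | rfl
    · rw [pair_one_t]
      exact mul_mem t_memK (inv_mem s_memK)
    · rw [pair_one_s]
      exact mul_mem (inv_mem s_memK) t_memK
    · rw [pair_one_s']
      exact mul_mem (mul_mem (mul_mem t_memK s_memK) (inv_mem t_memK)) (inv_mem t_memK)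
  | one => rw [pair_one]; exact one_mem _
  | mul g h _ _ ihg ihh =>
    have : pair 1 (g * h) = pair 1 g * pair 1 h := by rw [pair_mul, one_mul]
    rw [this]
    exact mul_mem ihg ihh
  | inv g _ ih =>
    have : pair 1 g⁻¹ = (pair 1 g)⁻¹ := by rw [pair_inv, inv_one]
    rw [this]
    exact inv_mem ih

theorem pair_left_memK {k : P} (hk : k ∈ K) : pair k 1 ∈ K := by
  induction hk using Subgroup.closure_induction with
  | mem g hg =>
    simp only [Set.mem_insert_iff, Set.mem_singleton_iff] at hg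
    rcases hg with rfl | rfl | rfl
    · rw [pair_t_one]
      exact mul_mem (inv_mem t_memK) (inv_mem s'_memK)
    · rw [pair_s_one]
      exact mul_mem (inv_mem s'_memK) (inv_mem t_memK)
    · rw [pair_s'_one]
      exact mul_mem (mul_mem (mul_mem (inv_mem t_memK) s'_memK) t_memK) t_memK
  | one => rw [pair_one]; exact one_mem _
  | mul g h _ _ ihg ihh =>
    have : pair (g * h) 1 = pair g 1 * pair h 1 := by rw [pair_mul, one_mul]
    rw [this]
    exact mul_mem ihg ihh
  | inv g _ ih =>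
    have : pair g⁻¹ 1 = (pair g 1)⁻¹ := by rw [pair_inv, inv_one]
    rw [this]
    exact inv_mem ih

theorem t_ne_one : t ≠ 1 := by
  intro h
  have := congrArg (fun p : P => p [false, false]) h
  revert this
  decide

theorem t_noncomm : t * pair 1 t ≠ pair 1 t * t := by
  intro h
  rw [t_eq, pair_mul, pair_mul] at h
  have h2 := (pair_inj h).2
  rw [← t_eq] at h2
  have := congrArg (fun p : P => p [true, false, false, false]) h2
  revert this
  decide

theorem rist_noncomm (u : List Bool) :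
    ∃ h1 ∈ K, ∃ h2 ∈ K, h1 ∈ Rist u ∧ h2 ∈ Rist u ∧ h1 * h2 ≠ h2 * h1 := by
  induction u with
  | nil =>
    exact ⟨t, t_memK, pair 1 t, pair_right_memK t_memK, fun w hw => absurd (List.nil_prefix) hw,
      fun w hw => absurd (List.nil_prefix) hw, t_noncomm⟩
  | cons x u ih =>
    obtain ⟨h1, hk1, h2, hk2, hr1, hr2, hne⟩ := ih
    cases x with
    | false =>
      refine ⟨pair h1 1, pair_left_memK hk1, pair h2 1, pair_left_memK hk2,
        pair_left_rist hr1, pair_left_rist hr2, ?_⟩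
      rw [pair_mul, pair_mul]
      intro h
      exact hne (pair_inj h).1
    | true =>
      refine ⟨pair 1 h1, pair_right_memK hk1, pair 1 h2, pair_right_memK hk2,
        pair_right_rist hr1, pair_right_rist hr2, ?_⟩
      rw [pair_mul, pair_mul]
      intro h
      exact hne (pair_inj h).2

/-- Level transitivity. -/
def Trans (N : Subgroup P) : Prop :=
  ∀ n : ℕ, ∀ u v : List Bool, u.length = n → v.length = n → ∃ g ∈ N, g u = v

theorem exists_moved {z : P} (hz : z ∈ Gam) (h1 : z ≠ 1) :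
    ∃ n, ∀ m, n ≤ m → ∃ v : List Bool, v.length = m ∧ z v ≠ v := by
  obtain ⟨v, hv⟩ : ∃ v, z v ≠ v := by
    by_contra hcon
    push Not at hcon
    exact h1 (Equiv.ext hcon)
  refine ⟨v.length, fun m hm => ⟨v ++ List.replicate (m - v.length) false, ?_, ?_⟩⟩
  · simp [hm]
  · intro h
    have h2 : z v <+: z (v ++ List.replicate (m - v.length) false) :=
      (gam_prefix hz _ _).1 (List.prefix_append _ _)
    rw [h] at h2
    exact hv (eq_of_prefix (gam_length hz v) h2 (List.prefix_append _ _))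

/-- Centralizers of conjugates are trivial. -/
theorem comm_lemma {N : Subgroup P} (hN : N ≤ Gam) (hK : K ≤ N) (hT : Trans N) {z x : P}
    (hz : z ∈ Gam) (hx : x ∈ Gam) (hz1 : z ≠ 1) (hcomm : ∀ g ∈ N, Commute x (g⁻¹ * z * g)) :
    x = 1 := by
  by_contra hx1
  obtain ⟨n1, hn1⟩ := exists_moved hz hz1
  obtain ⟨n2, hn2⟩ := exists_moved hx hx1
  obtain ⟨v, hvl, hv⟩ := hn1 (max n1 n2) (le_max_left _ _)
  obtain ⟨u, hul, hu⟩ := hn2 (max n1 n2) (le_max_right _ _)
  obtain ⟨g, hgN, hg⟩ := hT _ u v hul hvl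
  set z' : P := g⁻¹ * z * g with hz'
  have hz'G : z' ∈ Gam := mul_mem (mul_mem (inv_mem (hN hgN)) hz) (hN hgN)
  have hz'u : z' u ≠ u := by
    intro h
    rw [hz', Equiv.Perm.mul_apply, Equiv.Perm.mul_apply, hg, Equiv.Perm.inv_eq_iff_eq, hg] at h
    exact hv h
  have hc : ∀ h ∈ N, Commute x (h⁻¹ * z' * h) := by
    intro h hh
    have := hcomm (g * h) (mul_mem hgN hh)
    have e : (g * h)⁻¹ * z * (g * h) = h⁻¹ * z' * h := by rw [hz']; group
    rwa [e] at this
  obtain ⟨h1, hk1, h2, hk2, hr1, hr2, hne⟩ := rist_noncomm u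
  have hz'i : z'⁻¹ u ≠ u := by
    intro h
    rw [Equiv.Perm.inv_eq_iff_eq] at h
    exact hz'u h.symm
  have hlen : (z'⁻¹ u).length = u.length := gam_length (inv_mem hz'G) u
  -- `y1 = z'⁻¹ h1⁻¹ z'` is supported below `z'⁻¹ u`
  have hy1 : z'⁻¹ * h1⁻¹ * z' ∈ Rist (z'⁻¹ u) := by
    have := rist_conj (inv_mem hz'G) (inv_mem hr1)
    rwa [inv_inv] at this
  have hd : Commute (z'⁻¹ * h1⁻¹ * z') h2 := (rist_disjoint hlen hz'i hy1 hr2).commute
  have hcz : Commute x z' := by
    have := hc 1 (one_mem _)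
    simpa using this
  have hA : Commute x (z'⁻¹ * (h1⁻¹ * z' * h1)) := hcz.inv_right.mul_right (hc h1 (hK hk1))
  have hB : Commute x ((h2⁻¹ * z' * h2)⁻¹ * ((h1 * h2)⁻¹ * z' * (h1 * h2))) :=
    (hc h2 (hK hk2)).inv_right.mul_right (hc (h1 * h2) (hK (mul_mem hk1 hk2)))
  have hC := hA.inv_right.mul_right hB
  have hm : (z'⁻¹ * (h1⁻¹ * z' * h1))⁻¹ * ((h2⁻¹ * z' * h2)⁻¹ * ((h1 * h2)⁻¹ * z' * (h1 * h2)))
      = h1⁻¹ * h2⁻¹ * h1 * h2 := by
    have e1 : (h2⁻¹ * z' * h2)⁻¹ * ((h1 * h2)⁻¹ * z' * (h1 * h2)) =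
        h2⁻¹ * ((z'⁻¹ * h1⁻¹ * z') * (h1 * h2)) := by
      have : (h2⁻¹ * z' * h2)⁻¹ * ((h1 * h2)⁻¹ * z' * (h1 * h2)) =
        h2⁻¹ * z'⁻¹ * (h2 * h2⁻¹) * h1⁻¹ * z' * (h1 * h2) := by group
      rw [this]; group
    have e2 : (z'⁻¹ * (h1⁻¹ * z' * h1))⁻¹ = h1⁻¹ * (z'⁻¹ * h1⁻¹ * z')⁻¹ := by group
    rw [e1, e2]
    have e3 : h2⁻¹ * ((z'⁻¹ * h1⁻¹ * z') * (h1 * h2)) =
        (z'⁻¹ * h1⁻¹ * z') * (h2⁻¹ * (h1 * h2)) := by
      rw [← mul_assoc, hd.inv_right.symm.eq, mul_assoc]
    rw [e3]; group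
  rw [hm] at hC
  have hmr : h1⁻¹ * h2⁻¹ * h1 * h2 ∈ Rist u :=
    mul_mem (mul_mem (mul_mem (inv_mem hr1) (inv_mem hr2)) hr1) hr2
  have hmr2 := rist_conj hx hmr
  rw [hC.eq, mul_inv_cancel_right] at hmr2
  have h1eq := rist_inter (gam_length hx u) hu hmr2 hmr
  apply hne
  have : h2 * h1 * (h1⁻¹ * h2⁻¹ * h1 * h2) = h1 * h2 := by group
  rw [← this, h1eq, mul_one]

/-! ### The commutator subgroup -/

/-- The commutator subgroup of the Grigorchuk group, inside the permutation group. -/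
def Dp : Subgroup P := ⁅Gam, Gam⁆

theorem comm_mem_Dp {x y : P} (hx : x ∈ Gam) (hy : y ∈ Gam) : x * y * x⁻¹ * y⁻¹ ∈ Dp :=
  Subgroup.commutator_mem_commutator hx hy

theorem Dp_le : Dp ≤ Gam := by
  rw [Dp, Subgroup.commutator_le]
  intro g hg h hh
  exact mul_mem (mul_mem (mul_mem hg hh) (inv_mem hg)) (inv_mem hh)

theorem Dp_conj {g x : P} (hg : g ∈ Gam) (hx : x ∈ Dp) : g * x * g⁻¹ ∈ Dp := by
  have h1 := comm_mem_Dp hg (Dp_le hx)
  have : g * x * g⁻¹ = (g * x * g⁻¹ * x⁻¹) * x := by group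
  rw [this]
  exact mul_mem h1 hx

theorem Dp_pair {g : P} (hg : g ∈ Dp) : ∃ x y, g = pair x y := by
  have key : Dp ≤ ({ carrier := {g | ∃ x y, g = pair x y}
                     mul_mem' := by
                      rintro g h ⟨x, y, rfl⟩ ⟨x', y', rfl⟩
                      exact ⟨_, _, pair_mul _ _ _ _⟩
                     one_mem' := ⟨1, 1, pair_one.symm⟩
                     inv_mem' := by
                      rintro g ⟨x, y, rfl⟩
                      exact ⟨_, _, pair_inv _ _⟩ } : Subgroup P) := by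
    rw [Dp, Subgroup.commutator_le]
    intro g hg h hh
    obtain ⟨x, -, y, -, hg⟩ := gam_cases hg
    obtain ⟨x', -, y', -, hh⟩ := gam_cases hh
    rw [commutatorElement_def]
    rcases hg with rfl | rfl <;> rcases hh with rfl | rfl
    · exact ⟨_, _, by rw [pair_inv, pair_inv, pair_mul, pair_mul, pair_mul]⟩
    · refine ⟨x * x' * y⁻¹ * x'⁻¹, y * y' * x⁻¹ * y'⁻¹, ?_⟩
      have : pair x y * (pair x' y' * a) * (pair x y)⁻¹ * (pair x' y' * a)⁻¹ =
        pair x y * pair x' y' * (a * pair x⁻¹ y⁻¹ * a) * pair x'⁻¹ y'⁻¹ := by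
        rw [mul_inv_rev, a_inv, pair_inv, pair_inv]; simp only [mul_assoc]
      rw [this, a_conj, pair_mul, pair_mul, pair_mul]
    · refine ⟨x * y' * x⁻¹ * x'⁻¹, y * x' * y⁻¹ * y'⁻¹, ?_⟩
      have : pair x y * a * pair x' y' * (pair x y * a)⁻¹ * (pair x' y')⁻¹ =
        pair x y * (a * pair x' y' * a) * pair x⁻¹ y⁻¹ * pair x'⁻¹ y'⁻¹ := by
        rw [mul_inv_rev, a_inv, pair_inv, pair_inv]; simp only [mul_assoc]
      rw [this, a_conj, pair_mul, pair_mul, pair_mul]
    · refine ⟨x * y' * y⁻¹ * x'⁻¹, y * x' * x⁻¹ * y'⁻¹, ?_⟩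
      have : pair x y * a * (pair x' y' * a) * (pair x y * a)⁻¹ * (pair x' y' * a)⁻¹ =
        pair x y * (a * pair x' y' * a) * (a * pair x⁻¹ y⁻¹ * a) * pair x'⁻¹ y'⁻¹ := by
        rw [mul_inv_rev, mul_inv_rev, a_inv, pair_inv, pair_inv]; simp only [mul_assoc]
      rw [this, a_conj, a_conj, pair_mul, pair_mul, pair_mul]
  exact key hg

theorem t_memDp : t ∈ Dp := by
  have := comm_mem_Dp a_mem b_mem
  rwa [a_inv, b_inv] at this

theorem s_memDp : s ∈ Dp := by
  have := Dp_conj d_mem t_memDp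
  rwa [d_inv] at this

theorem s'_memDp : s' ∈ Dp := by
  have := Dp_conj a_mem s_memDp
  rwa [a_inv] at this

theorem K_le_Dp : K ≤ Dp := by
  rw [K, Subgroup.closure_le]
  intro g hg
  simp only [Set.mem_insert_iff, Set.mem_singleton_iff] at hg
  rcases hg with rfl | rfl | rfl
  · exact t_memDp
  · exact s_memDp
  · exact s'_memDp

theorem pair_swap_Dp {x y : P} (h : pair x y ∈ Dp) : pair y x ∈ Dp := by
  have := Dp_conj a_mem h
  rwa [a_inv, a_conj] at this

/-- First coordinates of elements of the commutator subgroup. -/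
def N0 : Subgroup P where
  carrier := {x | ∃ y, pair x y ∈ Dp}
  mul_mem' := by
    rintro x x' ⟨y, hy⟩ ⟨y', hy'⟩
    exact ⟨y * y', by rw [← pair_mul]; exact mul_mem hy hy'⟩
  one_mem' := ⟨1, by rw [pair_one]; exact one_mem _⟩
  inv_mem' := by
    rintro x ⟨y, hy⟩
    exact ⟨y⁻¹, by rw [← pair_inv]; exact inv_mem hy⟩

theorem N0_le : N0 ≤ Gam := by
  rintro x ⟨y, hy⟩
  exact (pair_mem_cases (Dp_le hy)).1

theorem K_le_N0 : K ≤ N0 := fun _ hk => ⟨1, K_le_Dp (pair_left_memK hk)⟩

theorem N0_conj {g x : P} (hg : g ∈ Gam) (hx : x ∈ N0) : g * x * g⁻¹ ∈ N0 := by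
  obtain ⟨y, hy⟩ := hx
  obtain ⟨h, hh⟩ := exists_pair_left hg
  refine ⟨h * y * h⁻¹, ?_⟩
  rw [← pair_mul, ← pair_mul, ← pair_inv]
  exact Dp_conj hh hy

theorem ca_mem_N0 : c * a ∈ N0 := ⟨a * c, by rw [← t_eq]; exact t_memDp⟩

theorem da_mem_N0 : d * a ∈ N0 := by
  refine ⟨a * d, ?_⟩
  have h := comm_mem_Dp a_mem c_mem
  rw [a_inv, c_inv] at h
  have : pair (d * a) (a * d) = a * c * a * c := by
    rw [show a * c * a * c = (a * c * a) * c from rfl]
    conv_rhs => rw [c_eq]
    rw [a_conj, pair_mul]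
  rwa [this]

theorem b_mem_N0 : b ∈ N0 := by
  refine ⟨b, ?_⟩
  have h := comm_mem_Dp a_mem d_mem
  rw [a_inv, d_inv] at h
  have : pair b b = a * d * a * d := by
    rw [show a * d * a * d = (a * d * a) * d from rfl]
    conv_rhs => rw [d_eq]
    rw [a_conj, pair_mul, mul_one, one_mul]
  rwa [this]

/-- All elements of the group occur as first coordinates of elements of `N0`. -/
theorem exists_pair_N0 {g : P} (hg : g ∈ Gam) : ∃ y, pair g y ∈ N0 := by
  have ha : pair a c ∈ N0 := b_eq ▸ b_mem_N0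
  have hc : pair c a ∈ N0 := by
    have := N0_conj a_mem ha
    rwa [a_inv, a_conj] at this
  have hab : pair (a * b) d ∈ N0 := by
    have h1 := mul_mem ca_mem_N0 da_mem_N0
    have : pair (a * b) d = c * a * (d * a) := by
      rw [show c * a * (d * a) = c * (a * d * a) by simp only [mul_assoc]]
      conv_rhs => rw [c_eq, d_eq]
      rw [a_conj, pair_mul, mul_one]
      rw [← d_eq]
    rwa [this]
  induction hg using Subgroup.closure_induction with
  | mem g hg =>
    simp only [Set.mem_insert_iff, Set.mem_singleton_iff] at hg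
    have hb : ∃ y, pair b y ∈ N0 := ⟨c⁻¹ * d, by
      have := mul_mem (inv_mem ha) hab
      rw [pair_inv, pair_mul, inv_mul_cancel_left] at this
      exact this⟩
    rcases hg with rfl | rfl | rfl | rfl
    · exact ⟨_, ha⟩
    · exact hb
    · exact ⟨_, hc⟩
    · obtain ⟨y, hy⟩ := hb
      refine ⟨y * a, ?_⟩
      rw [← b_mul_c, ← pair_mul]
      exact mul_mem hy hc
  | one => exact ⟨1, by rw [pair_one]; exact one_mem _⟩
  | mul g h _ _ ihg ihh =>
    obtain ⟨y, hy⟩ := ihg
    obtain ⟨y', hy'⟩ := ihh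
    exact ⟨y * y', by rw [← pair_mul]; exact mul_mem hy hy'⟩
  | inv g _ ih =>
    obtain ⟨y, hy⟩ := ih
    exact ⟨y⁻¹, by rw [← pair_inv]; exact inv_mem hy⟩

theorem exists_pair_N0' {g : P} (hg : g ∈ Gam) : ∃ y, pair y g ∈ N0 := by
  obtain ⟨y, hy⟩ := exists_pair_N0 hg
  refine ⟨y, ?_⟩
  have := N0_conj a_mem hy
  rwa [a_inv, a_conj] at this

theorem N0_trans : Trans N0 := by
  intro n
  induction n with
  | zero =>
    intro u v hu hv
    rw [List.length_eq_zero_iff] at hu hv
    subst hu; subst hv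
    exact ⟨1, one_mem _, rfl⟩
  | succ n ih =>
    intro u v hu hv
    match u, v, hu, hv with
    | x :: u, y :: v, hu, hv =>
      simp only [List.length_cons, Nat.add_right_cancel_iff] at hu hv
      -- flip the first letter if needed
      obtain ⟨g1, hg1, u', hu', hgu⟩ : ∃ g1 ∈ N0, ∃ u' : List Bool, u'.length = n ∧
          g1 (x :: u) = y :: u' := by
        by_cases hxy : x = y
        · subst hxy
          exact ⟨1, one_mem _, u, hu, rfl⟩
        · have hy : y = !x := by
            cases x <;> cases y <;> simp_all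
          refine ⟨c * a, ca_mem_N0, ((c * a) (x :: u)).tail, ?_, ?_⟩
          · rw [List.length_tail, gam_length (mul_mem c_mem a_mem)]
            simp [hu]
          · rw [hy]
            rw [Equiv.Perm.mul_apply, a_cons, c_eq]
            cases x <;> simp
      rcases y with _ | _
      · obtain ⟨h, hh, hhu⟩ := ih u' v hu' hv
        obtain ⟨k, hk⟩ := exists_pair_N0 (N0_le hh)
        refine ⟨pair h k * g1, mul_mem hk hg1, ?_⟩
        rw [Equiv.Perm.mul_apply, hgu, pair_false, hhu]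
      · obtain ⟨h, hh, hhu⟩ := ih u' v hu' hv
        obtain ⟨k, hk⟩ := exists_pair_N0' (N0_le hh)
        refine ⟨pair k h * g1, mul_mem hk hg1, ?_⟩
        rw [Equiv.Perm.mul_apply, hgu, pair_true, hhu]

end Pool.Agent.Lib.MP_b4aa87_al
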